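import Pool.Agent.Run7.h286.TG.RE
import Pool.Agent.Run7.h646.TG.LOCQ
import Pool.Agent.Run7.h779.TG.GRP
import Pool.Agent.N434.PJ.HP
import Pool.Agent.N769.PJ.Int
import Pool.Agent.N874.PP.Sel

/-!
# Project TG (helper784), piece REC (helper286): the reciprocity law
-/

set_option autoImplicit false
set_option linter.all false

open Polynomial IsDedekindDomain WithZero
open scoped Classical

namespace Run7.h286.TG

open Pool.Agent.N874.PP (Ov Ev Sq1 exists_below)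
open Pool.Agent.N352.PJ (IsGen Crd Fam GoodR Ht dsc res Mt S_INT S_PRY)
open Run7.h784.TG (Fm P_REC P_LOCQ P_GRP LocW SelC GoodT)
open Pool.Agent.N622.PJ (mapO val_ne val_exp eq_of_ov sq1_mul_sq sq1_iff sq1_mul sq1_of_mul
  sq1_mul_iff)

section ev

variable {O L : Type} [CommRing O] [IsDedekindDomain O] [Field L] [Algebra O L]
    [IsFractionRing O L] {𝔓 : HeightOneSpectrum O}

theorem ev_mul {x y : L} (hx : Ev 𝔓 x) (hy : Ev 𝔓 y) : Ev 𝔓 (x * y) := by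
  obtain ⟨u, hu⟩ := hx
  obtain ⟨v, hv⟩ := hy
  exact ⟨u * v, by rw [map_mul, map_mul, hu, hv, mul_pow]⟩

theorem ev_inv {x : L} (hx : Ev 𝔓 x) : Ev 𝔓 x⁻¹ := by
  obtain ⟨u, hu⟩ := hx
  exact ⟨u⁻¹, by rw [map_inv₀, map_inv₀, hu, inv_pow]⟩

theorem ev_cancel {x y : L} (hx0 : x ≠ 0) (hx : Ev 𝔓 x) (h : Ev 𝔓 (x * y)) : Ev 𝔓 y := by
  have h1 := ev_mul (ev_inv hx) h
  rwa [← mul_assoc, inv_mul_cancel₀ hx0, one_mul] at h1

theorem ev_one {x : L} (h : 𝔓.valuation L x = 1) : Ev 𝔓 x :=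
  ⟨1, by rw [h, map_one, one_pow]⟩

theorem not_ev {x : L} (h : 𝔓.valuation L x = exp (-1 : ℤ)) : ¬ Ev 𝔓 x := by
  rintro ⟨y, hy⟩
  rw [h] at hy
  have hy0 : 𝔓.valuation L y ≠ 0 := by
    intro h0
    rw [h0] at hy
    simp at hy
  have h1 := congrArg WithZero.log hy
  rw [WithZero.log_exp, WithZero.log_pow] at h1
  simp only [smul_eq_mul, nsmul_eq_mul] at h1
  push_cast at h1
  omega

end ev

/-- **REC.** -/
theorem T_REC (hGL : S_GLG) : P_REC := by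
  intro k K L O _ _ _ _ _ _ _ _ _ _ _ _ _ _ _ _ g N r f θ hF hG S u Q w hT hQm hQi hQS hQd hQw
    s x hs hx
  have hI : S_INT := Pool.Agent.N769.PJ.int
  have hL : P_LOCQ := Run7.h646.TG.T_LOCQ
  have hGR : P_GRP := Run7.h779.TG.T_GRP hL
  have hsq : Squarefree (dsc g f) := hF.fam.sq
  haveI : Algebra.IsIntegral k[X] O := IsIntegralClosure.isIntegral_algebra k[X] L
  have hinj : Function.Injective (algebraMap k[X] L) := by
    rw [IsScalarTower.algebraMap_eq k[X] K L]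
    exact (algebraMap K L).injective.comp (IsFractionRing.injective k[X] K)
  obtain ⟨S₁, hS₁⟩ : ∃ S₁ : Finset k[X], S₁ = insert Q S := ⟨_, rfl⟩
  obtain ⟨v, hv⟩ : ∃ v : k[X] → k[X], v = Function.update u Q w := ⟨_, rfl⟩
  have hvQ : v Q = w := by rw [hv, Function.update_self]
  have hvP : ∀ P ∈ S, v P = u P := by
    intro P hP
    rw [hv, Function.update_of_ne]
    rintro rfl
    exact hQS hP
  have hQ1 : Q ∈ S₁ := by rw [hS₁]; exact Finset.mem_insert_self _ _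
  have hP1 : ∀ P ∈ S₁, P = Q ∨ P ∈ S := by
    intro P hP
    rw [hS₁] at hP
    exact Finset.mem_insert.1 hP
  have hmon : ∀ P ∈ S₁, P.Monic := by
    intro P hP
    rcases hP1 P hP with rfl | h
    · exact hQm
    · exact hT.mon P h
  have hirr : ∀ P ∈ S₁, Irreducible P := by
    intro P hP
    rcases hP1 P hP with rfl | h
    · exact hQi
    · exact hT.irr P h
  have hnd : ∀ P ∈ S₁, ¬ P ∣ dsc g f := by
    intro P hP
    rcases hP1 P hP with rfl | h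
    · exact hQd
    · exact hT.nd P h
  have hnu : ∀ P ∈ S₁, ¬ P ∣ v P := by
    intro P hP
    rcases hP1 P hP with rfl | h
    · rw [hvQ]; exact hQw
    · rw [hvP P h]; exact hT.nu P h
  -- the local conditions
  obtain ⟨y, hy⟩ : ∃ y : k[X] → L, y = fun P => if P = Q then x else s * x := ⟨_, rfl⟩
  have hyQ : y Q = x := by rw [hy]; simp
  have hyP : ∀ P ∈ S, y P = s * x := by
    intro P hP
    have : P ≠ Q := by
      rintro rfl
      exact hQS hP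
    rw [hy]; simp [this]
  have hloc : ∀ P : k[X], ∃ a b : k[X][X], P ∈ S₁ →
      a.Monic ∧ b.Monic ∧ Even a.natDegree ∧ (∀ j, P ∣ (f - a * b).coeff j) ∧
      ∀ 𝔓 : HeightOneSpectrum O, Ov P 𝔓 →
      (𝔓.valuation L (eval₂ (algebraMap k[X] L) θ a) < 1 →
        Sq1 𝔓 (y P * (algebraMap k[X] L (-(P * v P)) * eval₂ (algebraMap k[X] L) θ b))) ∧
      (𝔓.valuation L (eval₂ (algebraMap k[X] L) θ a) = 1 →
        Sq1 𝔓 (y P * eval₂ (algebraMap k[X] L) θ a)) := by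
    intro P
    by_cases hP : P ∈ S₁
    · have h1 : LocW O f θ P (P * v P) (y P) := by
        rcases hP1 P hP with rfl | h
        · rw [hvQ, hyQ]
          have h2 := hx.tw P (Finset.mem_insert_self _ _)
          rwa [Function.update_self] at h2
        · rw [hvP P h, hyP P h]
          have h2 := hx.tw P (Finset.mem_insert_of_mem h)
          rw [← hv, hvP P h] at h2
          exact (hGR k K L O g N r f θ hF hG).1 P (hT.mon P h) (hT.irr P h) (hT.nd P h) (u P)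
            (hT.nu P h) s x hs.ne hx.ne (hs.tw P h) h2
      obtain ⟨a, b, h2⟩ := h1
      exact ⟨a, b, fun _ => h2⟩
    · exact ⟨0, 0, fun h => absurd h hP⟩
  choose a b hab using hloc
  have hfin : {𝔓 : HeightOneSpectrum O | ∃ P ∈ S₁, Ov P 𝔓 ∧
      𝔓.valuation L (eval₂ (algebraMap k[X] L) θ (a P)) < 1}.Finite := by
    refine Set.Finite.subset (s := ⋃ P ∈ S₁, {𝔓 : HeightOneSpectrum O | Ov P 𝔓})
      (Set.Finite.biUnion S₁.finite_toSet fun P hP =>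
        Pool.Agent.N765.PP.fin_over (K := K) (L := L) (hirr P hP).ne_zero) ?_
    rintro 𝔓 ⟨P, hP, hov, -⟩
    exact Set.mem_biUnion hP hov
  obtain ⟨T, hTT⟩ : ∃ T : Finset (HeightOneSpectrum O), ∀ 𝔓, 𝔓 ∈ T ↔ ∃ P ∈ S₁, Ov P 𝔓 ∧
      𝔓.valuation L (eval₂ (algebraMap k[X] L) θ (a P)) < 1 := ⟨hfin.toFinset, fun 𝔓 => by simp⟩
  have D : Dat g f θ S₁ a b T :=
    { inj := hinj
      mon := hmon
      irr := hirr
      nd := hnd
      am := fun P hP => (hab P hP).1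
      bm := fun P hP => (hab P hP).2.1
      cong := fun P hP => (hab P hP).2.2.2.1
      vP := by
        intro P hP 𝔓 hov
        have hmax : (Ideal.span {P} : Ideal k[X]).IsMaximal :=
          PrincipalIdealRing.isMaximal_of_irreducible (hirr P hP)
        letI i1 : Field (k[X] ⧸ Ideal.span {P}) := Ideal.Quotient.field _
        obtain ⟨t, ht⟩ := Pool.Agent.N765.PJ.theta_ex O hG
        have hπ : ∀ c : k[X], Ideal.Quotient.mk (Ideal.span {P}) c = 0 ↔ P ∣ c := fun c => by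
          rw [Ideal.Quotient.eq_zero_iff_mem, Ideal.mem_span_singleton]
        exact Run7.h646.TG.unram (K := K) (t := t) (π := Ideal.Quotient.mk (Ideal.span {P}))
          Ideal.Quotient.mk_surjective hπ (hirr P hP) hI hG hsq ht
          (Run7.h646.TG.red_sqf hπ hG.mon hG.deg hF.g1 (hnd P hP)) hov
      dich := by
        intro P hP 𝔓 hov
        exact (hL k K L O g N r f θ hF hG P (hmon P hP) (hirr P hP) (hnd P hP)).2.2.1 (a P) (b P)
          (hab P hP).1 (hab P hP).2.1 (hab P hP).2.2.2.1 𝔓 hov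
      mem := hTT }
  -- values of the classes
  have hodd1 : ∀ P ∈ S₁, ∀ 𝔓 : HeightOneSpectrum O, Ov P 𝔓 → 𝔓 ∈ T →
      𝔓.valuation L (algebraMap k[X] L (-(P * v P)) * eval₂ (algebraMap k[X] L) θ (b P)) =
        exp (-1 : ℤ) := by
    intro P hP 𝔓 hov h𝔓
    have h1 : 𝔓.valuation L (algebraMap k[X] L (v P)) = 1 :=
      Pool.Agent.N765.PP.val_eq (hirr P hP) hov (hnu P hP)
    rw [map_mul, (D.ta hP hov h𝔓).2, mul_one, map_neg, Valuation.map_neg, map_mul, map_mul, h1,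
      mul_one]
    exact D.vP P hP 𝔓 hov
  have hne0 : ∀ P ∈ S₁, ∀ 𝔓 : HeightOneSpectrum O, Ov P 𝔓 → 𝔓 ∈ T →
      algebraMap k[X] L (-(P * v P)) * eval₂ (algebraMap k[X] L) θ (b P) ≠ 0 := by
    intro P hP 𝔓 hov h𝔓 h0
    have h1 := hodd1 P hP 𝔓 hov h𝔓
    rw [h0, map_zero] at h1
    exact exp_ne_zero h1.symm
  have hyodd : ∀ P ∈ S₁, ∀ 𝔓 : HeightOneSpectrum O, Ov P 𝔓 → 𝔓 ∈ T → ¬ Ev 𝔓 (y P) := by
    intro P hP 𝔓 hov h𝔓 hev
    have h1 := ((hab P hP).2.2.2.2 𝔓 hov).1 (D.ta hP hov h𝔓).1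
    have h2 := Run7.h646.TG.ev_of_sq1 h1
    have hy0 : y P ≠ 0 := by
      rcases hP1 P hP with rfl | h
      · rw [hyQ]; exact hx.ne
      · rw [hyP P h]; exact mul_ne_zero hs.ne hx.ne
    exact not_ev (hodd1 P hP 𝔓 hov h𝔓) (ev_cancel hy0 hev h2)
  have hyev : ∀ P ∈ S₁, ∀ 𝔓 : HeightOneSpectrum O, Ov P 𝔓 → 𝔓 ∉ T → Ev 𝔓 (y P) := by
    intro P hP 𝔓 hov h𝔓
    have h1 : 𝔓.valuation L (eval₂ (algebraMap k[X] L) θ (a P)) = 1 := by
      rcases D.dich P hP 𝔓 hov with h | h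
      · exact absurd ((hTT 𝔓).2 ⟨P, hP, hov, h.1⟩) h𝔓
      · exact h.1
    have h2 := Run7.h646.TG.ev_of_sq1 (((hab P hP).2.2.2.2 𝔓 hov).2 h1)
    rw [mul_comm] at h2
    refine ev_cancel ?_ (ev_one h1) h2
    intro h0
    rw [h0, map_zero] at h1
    exact zero_ne_one h1
  have hsQ : ∀ 𝔓 : HeightOneSpectrum O, Ov Q 𝔓 → Ev 𝔓 s := hs.ev Q hQm hQi hQS
  have hα0 : s * x ≠ 0 := mul_ne_zero hs.ne hx.ne
  have hodd : ∀ 𝔓 ∈ T, ¬ Ev 𝔓 (s * x) := by
    intro 𝔓 h𝔓 hev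
    obtain ⟨P, hP, hov, -⟩ := (hTT 𝔓).1 h𝔓
    refine hyodd P hP 𝔓 hov h𝔓 ?_
    rcases hP1 P hP with rfl | h
    · rw [hyQ]
      exact ev_cancel hs.ne (hsQ 𝔓 hov) hev
    · rw [hyP P h]
      exact hev
  have hev : ∀ 𝔓 : HeightOneSpectrum O, 𝔓 ∉ T → Ev 𝔓 (s * x) := by
    intro 𝔓 h𝔓
    obtain ⟨R, hRm, hRi, hR⟩ := exists_below (k := k) 𝔓
    by_cases hRS : R ∈ S₁
    · have h1 := hyev R hRS 𝔓 hR h𝔓
      rcases hP1 R hRS with rfl | h
      · rw [hyQ] at h1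
        exact ev_mul (hsQ 𝔓 hR) h1
      · rw [hyP R h] at h1
        exact h1
    · rw [hS₁] at hRS
      exact ev_mul (hs.ev R hRm hRi (fun h => hRS (Finset.mem_insert_of_mem h)) 𝔓 hR)
        (hx.ev R hRm hRi hRS 𝔓 hR)
  have key := recg hI Pool.Agent.N434.PJ.pry hGL g k K L O f θ N r S₁ a b T hG hF ⟨Q, hQ1⟩ D
    (fun P hP => (hab P hP).2.2.1) (s * x) hα0 hodd hev v hnu
  have hset : {𝔓 : HeightOneSpectrum O | Ov Q 𝔓 ∧ ¬ Ev 𝔓 x ∧ ¬ Sq1 𝔓 s} =
      ((T.filter fun 𝔓 => ∀ P ∈ S₁, Ov P 𝔓 → ¬ Sq1 𝔓 (s * x * (algebraMap k[X] L (-(P * v P)) *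
        eval₂ (algebraMap k[X] L) θ (b P)))) : Finset (HeightOneSpectrum O)) := by
    ext 𝔓
    simp only [Set.mem_setOf_eq, Finset.coe_filter]
    have hiff : Ov Q 𝔓 → 𝔓 ∈ T → (Sq1 𝔓 (s * x * (algebraMap k[X] L (-(Q * v Q)) *
        eval₂ (algebraMap k[X] L) θ (b Q))) ↔ Sq1 𝔓 s) := by
      intro hov h𝔓
      have h1 := ((hab Q hQ1).2.2.2.2 𝔓 hov).1 (D.ta hQ1 hov h𝔓).1
      rw [hyQ] at h1
      rw [mul_assoc s]
      exact sq1_mul_iff (mul_ne_zero hx.ne (hne0 Q hQ1 𝔓 hov h𝔓)) h1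
    constructor
    · rintro ⟨hov, hxo, hso⟩
      have h𝔓 : 𝔓 ∈ T := by
        by_contra h
        have h1 := hyev Q hQ1 𝔓 hov h
        rw [hyQ] at h1
        exact hxo h1
      refine ⟨h𝔓, fun P hP hovP => ?_⟩
      have e1 : P = Q := eq_of_ov (hmon P hP) (hirr P hP) hQm hQi hovP hov
      rw [e1, hiff hov h𝔓]
      exact hso
    · rintro ⟨h𝔓, h⟩
      obtain ⟨P, hP, hov, hlt⟩ := (hTT 𝔓).1 h𝔓
      rcases hP1 P hP with rfl | h1
      · refine ⟨hov, ?_, ?_⟩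
        · have h2 := hyodd P hP 𝔓 hov h𝔓
          rwa [hyQ] at h2
        · have h2 := h P hP hov
          rwa [hiff hov h𝔓] at h2
      · exfalso
        have h2 := ((hab P hP).2.2.2.2 𝔓 hov).1 hlt
        rw [hyP P h1] at h2
        exact h P hP hov h2
  rw [hset, Set.ncard_coe_finset]
  exact key

end Run7.h286.TG
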