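import Pool.Agent.Run7.h286.TG.RDef
import Pool.Agent.N622.PJ.RecE
import Pool.Agent.N765.PP.Base

/-!
# Project TG (helper784), piece REC (helper286): the primes, the functional

Adapted from N622/PJ/RecB.lean, RecC.lean (helper622).
-/

set_option autoImplicit false
set_option linter.all false

open Polynomial IsDedekindDomain Matrix WithZero
open scoped Classical

namespace Run7.h286.TG

open Pool.Agent.N874.PP (Ov Ev Sq1)
open Pool.Agent.N352.PJ (IsGen Crd Fam GoodR Ht dsc res Mt S_INT S_PRY)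
open Run7.h784.TG (Fm)
open Pool.Agent.N622.PJ (resL resL_apply res_dvd res_congr dvd_of_res mapO mapK co co_spec tp tp_apply
  tp_spec dvd_co dvd_tp dvd_of_co co_low co_sum tp_pow dvd_of_top theta_ex crt crtL val_ne val_exp
  mem_iff_val lt_one_iff le_of_sq_le le_of_mul_le sum_sq_le ov_iff eq_of_ov FF red red_surj red_zero
  red_eq algF lam lam_add lam_smul co_pow poly_zero)

section dat

variable {k K L O : Type} [Field k] [Field K] [Algebra k[X] K] [IsFractionRing k[X] K]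
  [Field L] [Algebra K L] [Algebra k[X] L] [IsScalarTower k[X] K L] [CommRing O]
  [IsDedekindDomain O] [Algebra O L] [IsFractionRing O L] [Algebra k[X] O]
  [IsScalarTower k[X] O L] [IsIntegralClosure O k[X] L] {g : ℕ} {f : k[X][X]} {θ : L}
  {S₁ : Finset k[X]} {a b : k[X] → k[X][X]} {T : Finset (HeightOneSpectrum O)}

theorem Dat.monP (D : Dat g f θ S₁ a b T) : (∏ Q ∈ S₁, Q).Monic :=
  monic_prod_of_monic _ _ D.mon

/-- the other polynomials are units -/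
theorem Dat.val_other {T' : Finset k[X]} {𝔓 : HeightOneSpectrum O}
    (h : ∀ Q ∈ T', ¬ Ov Q 𝔓) : 𝔓.valuation L (algebraMap k[X] L (∏ Q ∈ T', Q)) = 1 := by
  rw [map_prod, map_prod]
  refine Finset.prod_eq_one fun Q hQ => ?_
  rw [IsScalarTower.algebraMap_apply k[X] O L, 𝔓.valuation_eq_one_iff_notMem]
  exact h Q hQ

theorem Dat.eq (D : Dat g f θ S₁ a b T) {Q Q' : k[X]} (hQ : Q ∈ S₁) (hQ' : Q' ∈ S₁)
    {𝔓 : HeightOneSpectrum O} (h1 : Ov Q 𝔓) (h2 : Ov Q' 𝔓) : Q = Q' :=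
  eq_of_ov (D.mon Q hQ) (D.irr Q hQ) (D.mon Q' hQ') (D.irr Q' hQ') h1 h2

/-- the valuation of the product -/
theorem Dat.valP (D : Dat g f θ S₁ a b T) {Q : k[X]} (hQ : Q ∈ S₁) {𝔓 : HeightOneSpectrum O}
    (h : Ov Q 𝔓) : 𝔓.valuation L (algebraMap k[X] L (∏ Q ∈ S₁, Q)) = exp (-1 : ℤ) := by
  rw [← Finset.mul_prod_erase _ _ hQ, map_mul, map_mul,
    Dat.val_other (fun Q' hQ' h' => Finset.ne_of_mem_erase hQ'
      (D.eq (Finset.mem_of_mem_erase hQ') hQ h' h)), mul_one]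
  exact D.vP Q hQ 𝔓 h

theorem Dat.valP_le (D : Dat g f θ S₁ a b T) (𝔓 : HeightOneSpectrum O) :
    𝔓.valuation L (algebraMap k[X] L (∏ Q ∈ S₁, Q)) ≤ 1 := by
  rw [IsScalarTower.algebraMap_apply k[X] O L]
  exact 𝔓.valuation_le_one _

theorem Dat.P0 (D : Dat g f θ S₁ a b T) : algebraMap k[X] L (∏ Q ∈ S₁, Q) ≠ 0 := by
  intro h0
  exact D.monP.ne_zero (D.inj (by rw [h0, map_zero]))

/-- divisibility by the product -/
theorem Dat.dvd (D : Dat g f θ S₁ a b T) {y : O}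
    (h : ∀ Q ∈ S₁, ∀ 𝔓 : HeightOneSpectrum O, Ov Q 𝔓 → y ∈ 𝔓.asIdeal) :
    algebraMap k[X] O (∏ Q ∈ S₁, Q) ∣ y := by
  have hP0 : algebraMap k[X] L (∏ Q ∈ S₁, Q) ≠ 0 := D.P0
  have key : ∀ 𝔓 : HeightOneSpectrum O,
      𝔓.valuation L (algebraMap O L y / algebraMap k[X] L (∏ Q ∈ S₁, Q)) ≤ 1 := by
    intro 𝔓
    rw [map_div₀, div_le_one₀ (zero_lt_iff.2 (val_ne 𝔓 hP0))]
    by_cases hov : ∃ Q ∈ S₁, Ov Q 𝔓
    · obtain ⟨Q, hQ, hv⟩ := hov
      rw [D.valP hQ hv, ← lt_one_iff, ← mem_iff_val]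
      exact h Q hQ 𝔓 hv
    · push Not at hov
      rw [Dat.val_other hov]
      exact 𝔓.valuation_le_one y
  obtain ⟨w, hw⟩ := HeightOneSpectrum.mem_integers_of_valuation_le_one L _ key
  refine ⟨w, IsFractionRing.injective O L ?_⟩
  rw [map_mul, ← IsScalarTower.algebraMap_apply, hw]
  field_simp

/-- divisibility by one of the primes -/
theorem Dat.dvdQ (D : Dat g f θ S₁ a b T) {Q : k[X]} (hQ : Q ∈ S₁) {y : O}
    (h : ∀ 𝔓 : HeightOneSpectrum O, Ov Q 𝔓 → y ∈ 𝔓.asIdeal) : algebraMap k[X] O Q ∣ y := by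
  have hQ0 : algebraMap k[X] L Q ≠ 0 := by
    intro h0
    exact (D.mon Q hQ).ne_zero (D.inj (by rw [h0, map_zero]))
  have key : ∀ 𝔓 : HeightOneSpectrum O,
      𝔓.valuation L (algebraMap O L y / algebraMap k[X] L Q) ≤ 1 := by
    intro 𝔓
    rw [map_div₀, div_le_one₀ (zero_lt_iff.2 (val_ne 𝔓 hQ0))]
    by_cases hov : Ov Q 𝔓
    · rw [D.vP Q hQ 𝔓 hov, ← lt_one_iff, ← mem_iff_val]
      exact h 𝔓 hov
    · have h1 : 𝔓.valuation L (algebraMap k[X] L Q) = 1 := by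
        rw [IsScalarTower.algebraMap_apply k[X] O L, 𝔓.valuation_eq_one_iff_notMem]
        exact hov
      rw [h1]
      exact 𝔓.valuation_le_one y
  obtain ⟨w, hw⟩ := HeightOneSpectrum.mem_integers_of_valuation_le_one L _ key
  refine ⟨w, IsFractionRing.injective O L ?_⟩
  rw [map_mul, ← IsScalarTower.algebraMap_apply, hw]
  field_simp

theorem Dat.mem_of_dvd (D : Dat g f θ S₁ a b T) {y : O}
    (h : algebraMap k[X] O (∏ Q ∈ S₁, Q) ∣ y) {𝔓 : HeightOneSpectrum O} {Q : k[X]} (hQ : Q ∈ S₁)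
    (hov : Ov Q 𝔓) : y ∈ 𝔓.asIdeal := by
  obtain ⟨w, rfl⟩ := h
  exact Ideal.mul_mem_right _ _ ((ov_iff (D.irr Q hQ) hov _).2 (Finset.dvd_prod_of_mem _ hQ))

theorem Dat.mem_b (D : Dat g f θ S₁ a b T) {Q : k[X]} (hQ : Q ∈ S₁) {𝔓 : HeightOneSpectrum O}
    (hov : Ov Q 𝔓) (hT : 𝔓 ∉ T) :
    𝔓.valuation L (eval₂ (algebraMap k[X] L) θ (b Q)) < 1 := by
  rcases D.dich Q hQ 𝔓 hov with h | h
  · exact absurd ((D.mem 𝔓).2 ⟨Q, hQ, hov, h.1⟩) hT
  · exact h.2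

theorem Dat.ta (D : Dat g f θ S₁ a b T) {Q : k[X]} (hQ : Q ∈ S₁) {𝔓 : HeightOneSpectrum O}
    (hov : Ov Q 𝔓) (hT : 𝔓 ∈ T) :
    𝔓.valuation L (eval₂ (algebraMap k[X] L) θ (a Q)) < 1 ∧
      𝔓.valuation L (eval₂ (algebraMap k[X] L) θ (b Q)) = 1 := by
  obtain ⟨Q', hQ', hov', h⟩ := (D.mem 𝔓).1 hT
  obtain rfl := D.eq hQ' hQ hov' hov
  rcases D.dich Q' hQ' 𝔓 hov with h1 | h1
  · exact h1
  · exact absurd h (by rw [h1.1]; exact lt_irrefl _)

/-- the idempotent -/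
theorem Dat.exists_eta (D : Dat g f θ S₁ a b T)
    (hfin : ∀ Q ∈ S₁, {𝔓 : HeightOneSpectrum O | Ov Q 𝔓}.Finite) :
    ∃ η : O, (∀ 𝔓 ∈ T, η - 1 ∈ 𝔓.asIdeal) ∧
      ∀ Q ∈ S₁, ∀ 𝔓 : HeightOneSpectrum O, Ov Q 𝔓 → 𝔓 ∉ T → η ∈ 𝔓.asIdeal := by
  have hfin' : {𝔓 : HeightOneSpectrum O | ∃ Q ∈ S₁, Ov Q 𝔓}.Finite := by
    have h1 : {𝔓 : HeightOneSpectrum O | ∃ Q ∈ S₁, Ov Q 𝔓} =
        ⋃ Q ∈ S₁, {𝔓 : HeightOneSpectrum O | Ov Q 𝔓} := by
      ext 𝔓
      simp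
    rw [h1]
    exact Set.Finite.biUnion S₁.finite_toSet hfin
  obtain ⟨η, hη⟩ := crt (T ∪ hfin'.toFinset) (fun 𝔓 => if 𝔓 ∈ T then 1 else 0)
  refine ⟨η, fun 𝔓 h𝔓 => ?_, fun Q hQ 𝔓 hov h𝔓 => ?_⟩
  · have h2 := hη 𝔓 (Finset.mem_union_left _ h𝔓)
    rwa [if_pos h𝔓] at h2
  · have h2 := hη 𝔓 (Finset.mem_union_right _ (by simpa using ⟨Q, hQ, hov⟩))
    rwa [if_neg h𝔓, sub_zero] at h2

end dat

/-! ### The residue fields -/

section ff

variable {k O : Type} [Field k] [CommRing O] [IsDedekindDomain O] [Algebra k[X] O]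

/-- the reduction modulo all primes -/
noncomputable def redT (T : Finset (HeightOneSpectrum O)) :
    O →+* (∀ i : T, FF (i : HeightOneSpectrum O)) := Pi.ringHom fun i => red (i : HeightOneSpectrum O)

theorem redT_apply (T : Finset (HeightOneSpectrum O)) (z : O) (i : T) :
    redT T z i = red (i : HeightOneSpectrum O) z := rfl

attribute [local instance] algF

theorem redT_smul (T : Finset (HeightOneSpectrum O)) (z : O) (c : k) :
    c • redT T z = redT T (algebraMap k[X] O (C c) * z) := by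
  funext i
  rw [Pi.smul_apply, Algebra.smul_def, redT_apply, redT_apply, map_mul]
  rfl

theorem redT_zero {T : Finset (HeightOneSpectrum O)} {z : O} :
    redT T z = 0 ↔ ∀ 𝔓 ∈ T, z ∈ 𝔓.asIdeal := by
  constructor
  · intro h 𝔓 h𝔓
    have h1 := congrFun h ⟨𝔓, h𝔓⟩
    rw [redT_apply, Pi.zero_apply, red_zero] at h1
    exact h1
  · intro h
    funext i
    rw [redT_apply, Pi.zero_apply, red_zero]
    exact h i i.2

/-- the reduction is onto -/
theorem redT_surj (T : Finset (HeightOneSpectrum O)) : Function.Surjective (redT T) := by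
  intro z
  choose e he using fun i : T => red_surj (i : HeightOneSpectrum O) (z i)
  obtain ⟨y, hy⟩ := crt T (fun 𝔓 => if h : 𝔓 ∈ T then e ⟨𝔓, h⟩ else 0)
  refine ⟨y, ?_⟩
  funext i
  have h1 := hy i i.2
  rw [dif_pos i.2, ← red_eq, he] at h1
  exact h1

end ff

section lam

variable {k K L O : Type} [Field k] [Field K] [Algebra k[X] K] [IsFractionRing k[X] K]
  [Field L] [Algebra K L] [Algebra k[X] L] [IsScalarTower k[X] K L] [CommRing O]
  [IsDedekindDomain O] [Algebra O L] [IsFractionRing O L] [Algebra k[X] O]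
  [IsScalarTower k[X] O L] [IsIntegralClosure O k[X] L] {g : ℕ} {f : k[X][X]} {θ : L}
  {S₁ : Finset k[X]} {a b : k[X] → k[X][X]} {T : Finset (HeightOneSpectrum O)}

variable (hI : S_INT) (hG : IsGen g K f θ) (hsq : Squarefree (dsc g f))

/-- the properties of `η` -/
def Eta (S₁ : Finset k[X]) (T : Finset (HeightOneSpectrum O)) (η : O) : Prop :=
  (∀ 𝔓 ∈ T, η - 1 ∈ 𝔓.asIdeal) ∧
    ∀ Q ∈ S₁, ∀ 𝔓 : HeightOneSpectrum O, Ov Q 𝔓 → 𝔓 ∉ T → η ∈ 𝔓.asIdeal

/-- congruences modulo `P` -/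
theorem lam_congr (D : Dat g f θ S₁ a b T) {η z w : O}
    (h : algebraMap k[X] O (∏ Q ∈ S₁, Q) ∣ η * z - w) :
    lam hI hG hsq S₁ η z = res (∏ Q ∈ S₁, Q) (tp hI hG hsq w) := by
  rw [lam]
  apply res_congr D.monP
  rw [← map_sub]
  exact dvd_tp hI hG hsq h

/-- the functional depends only on the classes modulo the primes in `T` -/
theorem lam_well (D : Dat g f θ S₁ a b T) {η : O} (hη : Eta S₁ T η) {z w : O}
    (h : redT T z = redT T w) : lam hI hG hsq S₁ η z = lam hI hG hsq S₁ η w := by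
  rw [lam_congr hI hG hsq D (w := η * w), lam]
  rw [← mul_sub]
  apply D.dvd
  intro Q hQ 𝔓 hov
  by_cases hT : 𝔓 ∈ T
  · apply Ideal.mul_mem_left
    rw [← sub_eq_zero, ← map_sub, redT_zero] at h
    exact h 𝔓 hT
  · exact Ideal.mul_mem_right _ _ (hη.2 Q hQ 𝔓 hov hT)

attribute [local instance] algF

/-- the functional -/
noncomputable def sL (D : Dat g f θ S₁ a b T) {η : O} (hη : Eta S₁ T η) :
    (∀ i : T, FF (i : HeightOneSpectrum O)) →ₗ[k] k where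
  toFun z := lam hI hG hsq S₁ η (redT_surj T z).choose
  map_add' x y := by
    rw [← lam_add]
    apply lam_well hI hG hsq D hη
    rw [(redT_surj T (x + y)).choose_spec, map_add, (redT_surj T x).choose_spec,
      (redT_surj T y).choose_spec]
  map_smul' c x := by
    rw [RingHom.id_apply, smul_eq_mul, ← lam_smul]
    apply lam_well hI hG hsq D hη
    rw [(redT_surj T (c • x)).choose_spec, ← redT_smul, (redT_surj T x).choose_spec]

theorem sL_red (D : Dat g f θ S₁ a b T) {η : O} (hη : Eta S₁ T η) (z : O) :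
    sL hI hG hsq D hη (redT T z) = lam hI hG hsq S₁ η z :=
  lam_well hI hG hsq D hη (redT_surj T (redT T z)).choose_spec

/-- the functional is nondegenerate -/
theorem sL_nondeg (D : Dat g f θ S₁ a b T) {η : O} (hη : Eta S₁ T η)
    (z : ∀ i : T, FF (i : HeightOneSpectrum O))
    (h : ∀ t, sL hI hG hsq D hη (z * t) = 0) : z = 0 := by
  obtain ⟨y, rfl⟩ := redT_surj T z
  obtain ⟨t, ht⟩ := theta_ex (O := O) hG
  have h1 : algebraMap k[X] O (∏ Q ∈ S₁, Q) ∣ η * y := by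
    apply dvd_of_top hI hG hsq ht
    intro m _
    apply dvd_of_res D.monP
    intro c
    have h2 := h (redT T (algebraMap k[X] O c * t ^ m))
    rw [← map_mul, sL_red, lam] at h2
    rw [← h2]
    congr 1
    rw [← smul_eq_mul, ← map_smul, Algebra.smul_def]
    congr 1
    ring
  rw [redT_zero]
  intro 𝔓 h𝔓
  obtain ⟨Q, hQ, hov, -⟩ := (D.mem 𝔓).1 h𝔓
  have h3 := D.mem_of_dvd h1 hQ hov
  have h4 : y = η * y - (η - 1) * y := by ring
  rw [h4]
  exact Ideal.sub_mem _ h3 (Ideal.mul_mem_right _ _ (hη.1 𝔓 h𝔓))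

end lam

end Run7.h286.TG
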