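import Pool.Agent.Run7.h286.TG.RB

/-!
# Project TG (helper784), piece REC (helper286): the second Lagrangian
-/

set_option autoImplicit false
set_option linter.all false

open Polynomial IsDedekindDomain Matrix WithZero
open scoped Classical

namespace Run7.h286.TG

open Pool.Agent.N874.PP (Ov Ev Sq1)
open Pool.Agent.N352.PJ (IsGen Crd Fam GoodR Ht dsc res Mt S_INT S_PRY)
open Run7.h784.TG (Fm)
open Pool.Agent.N622.PJ (resL resL_apply res_dvd res_congr dvd_of_res mapO mapK co co_spec tp tp_apply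
  tp_spec dvd_co dvd_tp dvd_of_co co_low co_sum tp_pow dvd_of_top theta_ex crt crtL val_ne val_exp
  mem_iff_val lt_one_iff le_of_sq_le le_of_mul_le sum_sq_le ov_iff eq_of_ov FF red red_surj red_zero
  red_eq algF lam lam_add lam_smul co_pow poly_zero)

section second

variable {k K L O : Type} [Field k] [Field K] [Algebra k[X] K] [IsFractionRing k[X] K]
  [Field L] [Algebra K L] [Algebra k[X] L] [IsScalarTower k[X] K L] [CommRing O]
  [IsDedekindDomain O] [Algebra O L] [IsFractionRing O L] [Algebra k[X] O]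
  [IsScalarTower k[X] O L] [IsIntegralClosure O k[X] L] {g : ℕ} {f : k[X][X]} {θ : L}
  {S₁ : Finset k[X]} {a b : k[X] → k[X][X]} {T : Finset (HeightOneSpectrum O)}

/-- evaluation in `O` -/
noncomputable def ev (t : O) : k[X][X] →+* O := eval₂RingHom (algebraMap k[X] O) t

theorem ev_C (t : O) (p : k[X]) : ev t (C p) = algebraMap k[X] O p := by simp [ev]

theorem ev_X (t : O) : ev (k := k) t X = t := by simp [ev]

theorem ev_map {t : O} (ht : algebraMap O L t = θ) (p : k[X][X]) :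
    algebraMap O L (ev t p) = eval₂ (algebraMap k[X] L) θ p := by
  rw [ev, coe_eval₂RingHom, hom_eval₂, ht, ← IsScalarTower.algebraMap_eq]

theorem ev_mem {t : O} (ht : algebraMap O L t = θ) (p : k[X][X]) (𝔓 : HeightOneSpectrum O) :
    ev t p ∈ 𝔓.asIdeal ↔ 𝔓.valuation L (eval₂ (algebraMap k[X] L) θ p) < 1 := by
  rw [mem_iff_val (L := L), ev_map ht]

variable (hI : S_INT) (hG : IsGen g K f θ) (hsq : Squarefree (dsc g f))

/-- the coordinates -/
theorem co_ev {t : O} (ht : algebraMap O L t = θ) {p : k[X][X]} (hp : p.natDegree < 2 * g + 1)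
    (i : Fin (2 * g + 1)) : co hI hG hsq (ev t p) i = p.coeff i := by
  have h1 : ev t p = ∑ i : Fin (2 * g + 1), algebraMap k[X] O (p.coeff i) * t ^ (i : ℕ) := by
    rw [ev, coe_eval₂RingHom, eval₂_eq_sum_range' _ hp, Finset.sum_range]
  rw [h1, co_low hI hG hsq ht]

theorem tp_ev {t : O} (ht : algebraMap O L t = θ) {p : k[X][X]} (hp : p.natDegree < 2 * g) :
    tp hI hG hsq (ev t p) = 0 := by
  rw [tp_apply, co_ev hI hG hsq ht (by omega)]
  exact coeff_eq_zero_of_natDegree_lt (by simpa using hp)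

include hI hG hsq in
/-- every element of `O` is of the form `ev t p` -/
theorem ev_surj {t : O} (ht : algebraMap O L t = θ) (z : O) : ∃ p : k[X][X], ev t p = z := by
  refine ⟨∑ i : Fin (2 * g + 1), C (co hI hG hsq z i) * X ^ (i : ℕ), ?_⟩
  conv_rhs => rw [co_sum hI hG hsq ht z]
  rw [map_sum]
  refine Finset.sum_congr rfl fun i _ => ?_
  rw [map_mul, map_pow, ev_C, ev_X]

/-- idempotents -/
theorem exists_idem (S₁ : Finset k[X]) (hm : ∀ P ∈ S₁, P.Monic) (hi : ∀ P ∈ S₁, Irreducible P) :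
    ∃ e : k[X] → k[X], ∀ P ∈ S₁, P ∣ e P - 1 ∧ ∀ Q ∈ S₁, Q ≠ P → Q ∣ e P := by
  have h1 : ∀ P : k[X], ∃ e : k[X], P ∈ S₁ → P ∣ e - 1 ∧ ∀ Q ∈ S₁, Q ≠ P → Q ∣ e := by
    intro P
    by_cases hP : P ∈ S₁
    · have hnd : ¬ P ∣ ∏ Q ∈ S₁.erase P, Q := by
        intro h
        obtain ⟨Q', hQ', hd⟩ := (hi P hP).prime.exists_mem_finset_dvd h
        have hQ'1 := Finset.mem_of_mem_erase hQ'
        exact Finset.ne_of_mem_erase hQ' (Polynomial.eq_of_monic_of_associated (hm P hP)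
          (hm Q' hQ'1) ((hi P hP).associated_of_dvd (hi Q' hQ'1) hd)).symm
      obtain ⟨u, v, huv⟩ := ((hi P hP).coprime_iff_not_dvd).2 hnd
      refine ⟨v * ∏ Q ∈ S₁.erase P, Q, fun _ => ⟨⟨-u, by linear_combination huv⟩, ?_⟩⟩
      intro Q hQ hne
      exact (Finset.dvd_prod_of_mem _ (Finset.mem_erase.2 ⟨hne, hQ⟩)).mul_left _
    · exact ⟨0, fun h => absurd h hP⟩
  choose e he using h1
  exact ⟨e, fun P hP => he P hP⟩

/-- the elements `e_P t ^ l θ ^ i` -/
noncomputable def yy (e : k[X] → k[X]) (t : O) (S₁ : Finset k[X]) (n : k[X] → ℕ)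
    (j : Σ P : S₁, Fin (n P) × Fin (P : k[X]).natDegree) : O :=
  algebraMap k[X] O (e j.1 * X ^ (j.2.2 : ℕ)) * t ^ (j.2.1 : ℕ)

/-- the part at `P` -/
noncomputable def Wp (S₁ : Finset k[X]) (n : k[X] → ℕ)
    (c : (Σ P : S₁, Fin (n P) × Fin (P : k[X]).natDegree) → k) (P : S₁) : k[X][X] :=
  ∑ i : Fin (n P), C (∑ l : Fin (P : k[X]).natDegree, C (c ⟨P, i, l⟩) * X ^ (l : ℕ)) * X ^ (i : ℕ)

theorem Wp_coeff (S₁ : Finset k[X]) (n : k[X] → ℕ)
    (c : (Σ P : S₁, Fin (n P) × Fin (P : k[X]).natDegree) → k) (P : S₁) (i : Fin (n P)) :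
    (Wp S₁ n c P).coeff i = ∑ l : Fin (P : k[X]).natDegree, C (c ⟨P, i, l⟩) * X ^ (l : ℕ) := by
  rw [Wp, finset_sum_coeff, Finset.sum_eq_single i]
  · rw [coeff_C_mul, coeff_X_pow, if_pos rfl, mul_one]
  · intro j _ hj
    rw [coeff_C_mul, coeff_X_pow, if_neg (fun h => hj (Fin.ext h.symm)), mul_zero]
  · intro h
    exact absurd (Finset.mem_univ _) h

theorem Wp_deg (S₁ : Finset k[X]) (n : k[X] → ℕ)
    (c : (Σ P : S₁, Fin (n P) × Fin (P : k[X]).natDegree) → k) (P : S₁) :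
    (Wp S₁ n c P).natDegree ≤ n P - 1 := by
  rw [Wp]
  refine natDegree_sum_le_of_forall_le _ _ fun i _ => ?_
  refine (natDegree_C_mul_X_pow_le _ _).trans ?_
  have := i.2
  omega

theorem sum_yy (e : k[X] → k[X]) (t : O) (S₁ : Finset k[X]) (n : k[X] → ℕ)
    (c : (Σ P : S₁, Fin (n P) × Fin (P : k[X]).natDegree) → k) :
    ∑ j, algebraMap k[X] O (C (c j)) * yy e t S₁ n j =
      ∑ P : S₁, algebraMap k[X] O (e P) * ev t (Wp S₁ n c P) := by
  rw [Fintype.sum_sigma]
  refine Finset.sum_congr rfl fun P _ => ?_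
  rw [Fintype.sum_prod_type, Wp, map_sum, Finset.mul_sum]
  refine Finset.sum_congr rfl fun i _ => ?_
  rw [map_mul, map_pow, ev_C, ev_X, map_sum, Finset.sum_mul, Finset.mul_sum]
  refine Finset.sum_congr rfl fun l _ => ?_
  rw [yy, map_mul, map_mul, map_pow]
  ring

/-- congruence of the sum at the primes over `P` -/
theorem sum_sub_mem {e : k[X] → k[X]}
    (he : ∀ P ∈ S₁, P ∣ e P - 1 ∧ ∀ Q ∈ S₁, Q ≠ P → Q ∣ e P) (y : S₁ → O) (P : S₁)
    {𝔓 : HeightOneSpectrum O} (hov : Ov (P : k[X]) 𝔓) :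
    (∑ P : S₁, algebraMap k[X] O (e P) * y P) - y P ∈ 𝔓.asIdeal := by
  have hmem : ∀ c : k[X], (P : k[X]) ∣ c → algebraMap k[X] O c ∈ 𝔓.asIdeal := by
    rintro c ⟨d, rfl⟩
    rw [map_mul]
    exact Ideal.mul_mem_right _ _ hov
  rw [← Finset.add_sum_erase _ _ (Finset.mem_univ P)]
  have e1 : algebraMap k[X] O (e P) * y P + (∑ P' ∈ Finset.univ.erase P,
      algebraMap k[X] O (e P') * y P') - y P = algebraMap k[X] O (e P - 1) * y P +
      ∑ P' ∈ Finset.univ.erase P, algebraMap k[X] O (e P') * y P' := by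
    rw [map_sub, map_one]; ring
  rw [e1]
  refine Ideal.add_mem _ (Ideal.mul_mem_right _ _ (hmem _ (he P P.2).1)) ?_
  refine Ideal.sum_mem _ fun P' hP' => Ideal.mul_mem_right _ _ (hmem _ ?_)
  exact (he P' P'.2).2 P P.2 fun h => Finset.ne_of_mem_erase hP' (Subtype.ext h.symm)

attribute [local instance] algF

include hI hG hsq in
/-- the second Lagrangian is independent -/
theorem second_ind (D : Dat g f θ S₁ a b T) {t : O} (ht : algebraMap O L t = θ)
    {e : k[X] → k[X]} (he : ∀ P ∈ S₁, P ∣ e P - 1 ∧ ∀ Q ∈ S₁, Q ≠ P → Q ∣ e P) {n : k[X] → ℕ}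
    (hn : ∀ P ∈ S₁, n P ≤ (a P).natDegree) :
    LinearIndependent k (fun j : (Σ P : S₁, Fin (n P) × Fin (P : k[X]).natDegree) =>
      redT T (yy e t S₁ n j)) := by
  rw [Fintype.linearIndependent_iff]
  intro c hc
  simp only [redT_smul] at hc
  rw [← map_sum, redT_zero, sum_yy] at hc
  rintro ⟨P, i, l⟩
  have hi := i.2
  have hnP := hn P P.2
  have hdeg := D.deg hG.mon hG.deg P.2
  have h1 : ∀ 𝔓 : HeightOneSpectrum O, Ov (P : k[X]) 𝔓 → ev t (b P * Wp S₁ n c P) ∈ 𝔓.asIdeal := by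
    intro 𝔓 hov
    rw [map_mul]
    by_cases hT : 𝔓 ∈ T
    · apply Ideal.mul_mem_left
      have h2 := sum_sub_mem he (fun P => ev t (Wp S₁ n c P)) P hov
      have h3 := Ideal.sub_mem _ (hc 𝔓 hT) h2
      rwa [sub_sub_cancel] at h3
    · apply Ideal.mul_mem_right
      rw [ev_mem ht]
      exact D.mem_b P.2 hov hT
  have h2 := D.dvdQ P.2 h1
  have hdW := Wp_deg S₁ n c P
  have hdeg2 : (b P * Wp S₁ n c P).natDegree < 2 * g + 1 := by
    refine lt_of_le_of_lt natDegree_mul_le ?_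
    omega
  have h3 : C (P : k[X]) ∣ b P * Wp S₁ n c P := by
    rw [C_dvd_iff_dvd_coeff]
    intro m
    by_cases hm : m < 2 * g + 1
    · have h4 := dvd_co hI hG hsq h2 ⟨m, hm⟩
      rw [co_ev hI hG hsq ht hdeg2] at h4
      exact h4
    · rw [coeff_eq_zero_of_natDegree_lt (by omega)]
      exact dvd_zero _
  have hp : Prime (C (P : k[X])) := prime_C_iff.2 (D.irr P P.2).prime
  rcases hp.dvd_or_dvd h3 with h4 | h4
  · exfalso
    rw [C_dvd_iff_dvd_coeff] at h4
    have h5 := h4 (b P).natDegree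
    rw [(D.bm P P.2).coeff_natDegree] at h5
    exact (D.irr P P.2).not_isUnit (isUnit_of_dvd_one h5)
  · rw [C_dvd_iff_dvd_coeff] at h4
    have h5 := h4 i
    rw [Wp_coeff] at h5
    exact congrFun (poly_zero (D.mon P P.2) (fun l => c ⟨P, i, l⟩) h5) l

theorem trunc_sum (P q : k[X]) (hP : P.Monic) :
    ∑ l : Fin P.natDegree, C ((q %ₘ P).coeff l) * X ^ (l : ℕ) = q %ₘ P := by
  by_cases h1 : P = 1
  · subst h1
    rw [modByMonic_one, natDegree_one]
    simp
  · have h2 : (q %ₘ P).natDegree < P.natDegree := natDegree_modByMonic_lt q hP h1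
    conv_rhs => rw [as_sum_range' (q %ₘ P) _ h2]
    rw [Finset.sum_range]
    refine Finset.sum_congr rfl fun l _ => ?_
    rw [C_mul_X_pow_eq_monomial]

include hI hG hsq in
/-- the elements generate -/
theorem second_span (D : Dat g f θ S₁ a b T) {t : O} (ht : algebraMap O L t = θ)
    {e : k[X] → k[X]} (he : ∀ P ∈ S₁, P ∣ e P - 1 ∧ ∀ Q ∈ S₁, Q ≠ P → Q ∣ e P) {n : k[X] → ℕ}
    (hn : ∀ P ∈ S₁, n P = (a P).natDegree) :
    ⊤ ≤ Submodule.span k (Set.range
      (fun j : (Σ P : S₁, Fin (n P) × Fin (P : k[X]).natDegree) =>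
      redT T (yy e t S₁ n j))) := by
  intro z _
  obtain ⟨z, rfl⟩ := redT_surj T z
  obtain ⟨h, rfl⟩ := ev_surj hI hG hsq ht z
  -- the coefficients
  obtain ⟨c, hc⟩ : ∃ c : (Σ P : S₁, Fin (n P) × Fin (P : k[X]).natDegree) → k, ∀ j, c j =
        (((h %ₘ a j.1).coeff j.2.1) %ₘ (j.1 : k[X])).coeff j.2.2 := ⟨_, fun _ => rfl⟩
  have key : redT T (ev t h) = ∑ j, c j • redT T (yy e t S₁ n j) := by
    simp only [redT_smul]
    rw [← map_sum, ← sub_eq_zero, ← map_sub, redT_zero, sum_yy]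
    intro 𝔓 h𝔓
    obtain ⟨P, hP, hov, hlt⟩ := (D.mem 𝔓).1 h𝔓
    have h1 := sum_sub_mem he (fun P => ev t (Wp S₁ n c P)) ⟨P, hP⟩ hov
    have hnP := hn P hP
    have h2 : ev t h - ev t (Wp S₁ n c ⟨P, hP⟩) ∈ 𝔓.asIdeal := by
      rw [← map_sub]
      have e1 : h - Wp S₁ n c ⟨P, hP⟩ = a P * (h /ₘ a P) +
          (h %ₘ a P - Wp S₁ n c ⟨P, hP⟩) := by
        have := modByMonic_add_div h (a P)
        linear_combination -this
      rw [e1, map_add, map_mul]
      refine Ideal.add_mem _ (Ideal.mul_mem_right _ _ ((ev_mem ht _ _).2 hlt)) ?_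
      have e2 : C P ∣ h %ₘ a P - Wp S₁ n c ⟨P, hP⟩ := by
        rw [C_dvd_iff_dvd_coeff]
        intro m
        rw [coeff_sub]
        by_cases hm : m < n P
        · have e3 := Wp_coeff S₁ n c ⟨P, hP⟩ ⟨m, hm⟩
          have e4 : (Wp S₁ n c ⟨P, hP⟩).coeff m = ((h %ₘ a P).coeff m) %ₘ P := by
            refine e3.trans ?_
            rw [← trunc_sum P ((h %ₘ a P).coeff m) (D.mon P hP)]
            refine Finset.sum_congr rfl fun l _ => ?_
            rw [hc]
          rw [e4]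
          have := modByMonic_add_div ((h %ₘ a P).coeff m) P
          exact ⟨((h %ₘ a P).coeff m) /ₘ P, by linear_combination -this⟩
        · by_cases ha1 : a P = 1
          · rw [ha1, modByMonic_one, coeff_zero, zero_sub, dvd_neg]
            have h4 : Wp S₁ n c ⟨P, hP⟩ = 0 := by
              rw [Wp]
              refine Finset.sum_eq_zero fun i _ => ?_
              exfalso
              have h5 : (i : ℕ) < n P := i.2
              rw [ha1, natDegree_one] at hnP
              omega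
            rw [h4, coeff_zero]
            exact dvd_zero _
          · have h3 : (h %ₘ a P).natDegree < (a P).natDegree :=
              natDegree_modByMonic_lt h (D.am P hP) ha1
            have h4 : (Wp S₁ n c ⟨P, hP⟩).natDegree ≤ n P - 1 := Wp_deg S₁ n c ⟨P, hP⟩
            rw [coeff_eq_zero_of_natDegree_lt (by omega), coeff_eq_zero_of_natDegree_lt (by omega),
              sub_zero]
            exact dvd_zero _
      obtain ⟨q, hq⟩ := e2
      rw [hq, map_mul, ev_C]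
      exact Ideal.mul_mem_right _ _ hov
    have e5 : ev t h - ∑ P : S₁, algebraMap k[X] O (e P) * ev t (Wp S₁ n c P) =
        (ev t h - ev t (Wp S₁ n c ⟨P, hP⟩)) -
        ((∑ P : S₁, algebraMap k[X] O (e P) * ev t (Wp S₁ n c P)) -
          ev t (Wp S₁ n c ⟨P, hP⟩)) := by ring
    rw [e5]
    exact Ideal.sub_mem _ h2 h1
  rw [key]
  exact Submodule.sum_mem _ fun j _ => Submodule.smul_mem _ _ (Submodule.subset_span ⟨j, rfl⟩)

theorem card_idx (S₁ : Finset k[X]) (n : k[X] → ℕ) :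
    Fintype.card (Σ P : S₁, Fin (n P) × Fin (P : k[X]).natDegree) =
      ∑ P ∈ S₁, n P * P.natDegree := by
  rw [Fintype.card_sigma, ← Finset.sum_coe_sort S₁ (fun P : k[X] => n P * P.natDegree)]
  refine Finset.sum_congr rfl fun P _ => ?_
  rw [Fintype.card_prod, Fintype.card_fin, Fintype.card_fin]

include hI hG hsq in
/-- the dimension -/
theorem second_rank (D : Dat g f θ S₁ a b T) :
    Module.finrank k (∀ i : T, FF (i : HeightOneSpectrum O)) =
      ∑ P ∈ S₁, (a P).natDegree * P.natDegree := by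
  obtain ⟨t, ht⟩ := theta_ex (O := O) hG
  obtain ⟨e, he⟩ := exists_idem S₁ D.mon D.irr
  have h1 := second_ind hI hG hsq D ht he (n := fun P => (a P).natDegree) (fun P _ => le_rfl)
  have h2 := second_span hI hG hsq D ht he (n := fun P => (a P).natDegree) (fun P _ => rfl)
  rw [Module.finrank_eq_card_basis (Module.Basis.mk h1 h2)]
  exact card_idx S₁ fun P => (a P).natDegree

/-- the class at the primes -/
noncomputable def bb (e : k[X] → k[X]) (t : O) (S₁ : Finset k[X]) (b : k[X] → k[X][X])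
    (c : k[X] → k[X]) : O :=
  ∑ P ∈ S₁, algebraMap k[X] O (e P) * (algebraMap k[X] O (c P) * ev t (b P))

theorem bb_mem {e : k[X] → k[X]}
    (he : ∀ P ∈ S₁, P ∣ e P - 1 ∧ ∀ Q ∈ S₁, Q ≠ P → Q ∣ e P) (t : O) (b : k[X] → k[X][X])
    (c : k[X] → k[X]) {P : k[X]} (hP : P ∈ S₁)
    {𝔓 : HeightOneSpectrum O} (hov : Ov P 𝔓) :
    bb e t S₁ b c - algebraMap k[X] O (c P) * ev t (b P) ∈ 𝔓.asIdeal := by
  have h := sum_sub_mem he (fun P => algebraMap k[X] O (c P) * ev t (b P)) ⟨P, hP⟩ hov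
  rw [bb, ← Finset.sum_coe_sort S₁]
  exact h

/-- the second Lagrangian is isotropic -/
theorem second_iso (D : Dat g f θ S₁ a b T) {η : O} (hη : Eta S₁ T η) {t : O}
    (ht : algebraMap O L t = θ) {e : k[X] → k[X]}
    (he : ∀ P ∈ S₁, P ∣ e P - 1 ∧ ∀ Q ∈ S₁, Q ≠ P → Q ∣ e P) {n : k[X] → ℕ}
    (hn : ∀ P ∈ S₁, 2 * n P ≤ (a P).natDegree) (c : k[X] → k[X])
    (j j' : Σ P : S₁, Fin (n P) × Fin (P : k[X]).natDegree) :
    sL hI hG hsq D hη (redT T (bb e t S₁ b c) * redT T (yy e t S₁ n j) *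
      redT T (yy e t S₁ n j')) = 0 := by
  rw [← map_mul, ← map_mul, sL_red]
  rw [lam_congr hI hG hsq D (w := bb e t S₁ b c * yy e t S₁ n j * yy e t S₁ n j')]
  · rw [bb, Finset.sum_mul, Finset.sum_mul, map_sum, ← resL_apply, map_sum]
    refine Finset.sum_eq_zero fun Q hQ => ?_
    rw [resL_apply]
    by_cases h : Q = j.1 ∧ Q = j'.1
    · obtain ⟨h1, h2⟩ := h
      have e1 : algebraMap k[X] O (e Q) * (algebraMap k[X] O (c Q) * ev t (b Q)) *
          yy e t S₁ n j * yy e t S₁ n j' = (e Q * c Q * (e j.1 * X ^ (j.2.2 : ℕ)) *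
            (e j'.1 * X ^ (j'.2.2 : ℕ))) • ev t (b Q * X ^ ((j.2.1 : ℕ) + (j'.2.1 : ℕ))) := by
        rw [yy, yy, Algebra.smul_def, map_mul (ev t), map_pow (ev t), ev_X, pow_add]
        simp only [map_mul]
        ring
      rw [e1, map_smul, tp_ev hI hG hsq ht, smul_zero, ← resL_apply, map_zero]
      have hdeg := D.deg hG.mon hG.deg hQ
      have hj : (j.2.1 : ℕ) < n Q := by
        have := j.2.1.2
        have e2 : n (j.1 : k[X]) = n Q := by rw [h1]
        omega
      have hj' : (j'.2.1 : ℕ) < n Q := by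
        have := j'.2.1.2
        have e2 : n (j'.1 : k[X]) = n Q := by rw [h2]
        omega
      have hnQ := hn Q hQ
      refine lt_of_le_of_lt natDegree_mul_le ?_
      rw [natDegree_X_pow]
      omega
    · apply res_dvd D.monP
      apply dvd_tp hI hG hsq
      apply D.dvd
      intro R hR 𝔓 hov
      have hmem : ∀ P ∈ S₁, P ≠ R → algebraMap k[X] O (e P) ∈ 𝔓.asIdeal := by
        intro P hP hne
        obtain ⟨d, hd⟩ := (he P hP).2 R hR (Ne.symm hne)
        rw [hd, map_mul]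
        exact Ideal.mul_mem_right _ _ hov
      by_cases h1 : Q = R
      · by_cases h2 : (j.1 : k[X]) = R
        · have h3 : (j'.1 : k[X]) ≠ R := by
            intro h3
            exact h ⟨h1.trans h2.symm, h1.trans h3.symm⟩
          apply Ideal.mul_mem_left
          rw [yy, map_mul]
          exact Ideal.mul_mem_right _ _ (Ideal.mul_mem_right _ _ (hmem _ j'.1.2 h3))
        · apply Ideal.mul_mem_right
          apply Ideal.mul_mem_left
          rw [yy, map_mul]
          exact Ideal.mul_mem_right _ _ (Ideal.mul_mem_right _ _ (hmem _ j.1.2 h2))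
      · exact Ideal.mul_mem_right _ _ (Ideal.mul_mem_right _ _
          (Ideal.mul_mem_right _ _ (hmem Q hQ h1)))
  · apply D.dvd
    intro Q hQ 𝔓 hov
    have h1 : η * (bb e t S₁ b c * yy e t S₁ n j * yy e t S₁ n j') -
        bb e t S₁ b c * yy e t S₁ n j * yy e t S₁ n j' =
        (η - 1) * (bb e t S₁ b c * yy e t S₁ n j * yy e t S₁ n j') := by ring
    rw [h1]
    by_cases hT : 𝔓 ∈ T
    · exact Ideal.mul_mem_right _ _ (hη.1 𝔓 hT)
    · apply Ideal.mul_mem_left
      rw [mul_assoc]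
      apply Ideal.mul_mem_right
      have h2 := bb_mem he t b c hQ hov
      have h3 : bb e t S₁ b c = (bb e t S₁ b c - algebraMap k[X] O (c Q) * ev t (b Q)) +
        algebraMap k[X] O (c Q) * ev t (b Q) := by ring
      rw [h3]
      exact Ideal.add_mem _ h2 (Ideal.mul_mem_left _ _ ((ev_mem ht _ _).2 (D.mem_b hQ hov hT)))

end second

end Run7.h286.TG
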