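import Pool.Agent.Run7.h784.TG.Stm

/-!
# Project TG (helper784), piece REC (helper286): the data and the statement on global Lagrangians
-/

set_option autoImplicit false
set_option linter.all false

open Polynomial IsDedekindDomain WithZero
open scoped Classical

namespace Run7.h286.TG

open Pool.Agent.N874.PP (Ov Ev Sq1)
open Pool.Agent.N352.PJ (IsGen Crd Fam GoodR Ht dsc res Mt)
open Run7.h784.TG (Fm)

/-- Factorisations `f ≡ a P * b P` modulo the `P` in `S₁`; `T` is the set of the primes over the `P` in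
`S₁` which contain `a P` evaluated at `θ`. -/
structure Dat {k L : Type} [Field k] [Field L] [Algebra k[X] L] {O : Type} [CommRing O]
    [IsDedekindDomain O] [Algebra O L] [IsFractionRing O L] [Algebra k[X] O] (g : ℕ) (f : k[X][X])
    (θ : L) (S₁ : Finset k[X]) (a b : k[X] → k[X][X]) (T : Finset (HeightOneSpectrum O)) : Prop where
  inj : Function.Injective (algebraMap k[X] L)
  mon : ∀ P ∈ S₁, P.Monic
  irr : ∀ P ∈ S₁, Irreducible P
  nd : ∀ P ∈ S₁, ¬ P ∣ dsc g f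
  am : ∀ P ∈ S₁, (a P).Monic
  bm : ∀ P ∈ S₁, (b P).Monic
  cong : ∀ P ∈ S₁, ∀ j, P ∣ (f - a P * b P).coeff j
  vP : ∀ P ∈ S₁, ∀ 𝔓 : HeightOneSpectrum O, Ov P 𝔓 →
    𝔓.valuation L (algebraMap k[X] L P) = exp (-1 : ℤ)
  dich : ∀ P ∈ S₁, ∀ 𝔓 : HeightOneSpectrum O, Ov P 𝔓 →
    (𝔓.valuation L (eval₂ (algebraMap k[X] L) θ (a P)) < 1 ∧
      𝔓.valuation L (eval₂ (algebraMap k[X] L) θ (b P)) = 1) ∨
    (𝔓.valuation L (eval₂ (algebraMap k[X] L) θ (a P)) = 1 ∧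
      𝔓.valuation L (eval₂ (algebraMap k[X] L) θ (b P)) < 1)
  mem : ∀ 𝔓 : HeightOneSpectrum O, 𝔓 ∈ T ↔ ∃ P ∈ S₁, Ov P 𝔓 ∧
    𝔓.valuation L (eval₂ (algebraMap k[X] L) θ (a P)) < 1

/-- **IDG** (adapt `S_IDX`, N227/PJ/Idx.lean). The lattice `I` with `I ^ 2 = α ∏_{𝔓 ∈ T} 𝔓⁻¹` with the
form `P x y / α`, `P = ∏ Q`: the degree of the Gram determinant is `∑ deg (b P) deg P`.

Proof: as in `idx`; `loc_main` of that file is general and reduces it to the norm of `ζ` in `O`, which has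
valuation `exp (-1)` at the primes over `R` not in `T` and `1` at those in `T`. Lemma: if `ζ` is in all the
primes over `R` which contain `b R (θ)` then `R ^ deg (b R)` divides the norm of `ζ` (`ζ * a R (θ)` is divisible by
`R`; take the basis `1, θ, .., θ^(d-1), a(θ), .., θ^(n-d-1) a(θ)` of `O`). Use it for `ζ` and for the
complementary element `ζ'`, `ζ * ζ' = R * (unit at R)` (`norm_unit` of that file). -/
def S_IDG : Prop := ∀ (g : ℕ) (k K L O : Type) [Field k] [Finite k] [Field K] [Algebra k[X] K]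
  [IsFractionRing k[X] K]
  [Field L] [Algebra K L] [Algebra k[X] L] [IsScalarTower k[X] K L] [CommRing O]
  [IsDedekindDomain O] [Algebra O L] [IsFractionRing O L] [Algebra k[X] O]
  [IsScalarTower k[X] O L] [IsIntegralClosure O k[X] L] (f : k[X][X]) (θ : L)
  (S₁ : Finset k[X]) (a b : k[X] → k[X][X]) (T : Finset (HeightOneSpectrum O)),
  ∀ hG : IsGen g K f θ, Squarefree (dsc g f) → Dat g f θ S₁ a b T →
  ∀ α : L, α ≠ 0 → (∀ 𝔓 ∈ T, ¬ Ev 𝔓 α) → (∀ 𝔓 : HeightOneSpectrum O, 𝔓 ∉ T → Ev 𝔓 α) →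
  ∀ e : Fin (2 * g + 1) → L, LinearIndependent K e →
    (∀ x : L, (∃ ξ : Fin (2 * g + 1) → k[X], x = ∑ i, algebraMap k[X] L (ξ i) * e i) ↔
      ∀ 𝔓 : HeightOneSpectrum O, 𝔓.valuation L x ^ 2 ≤
        𝔓.valuation L α * (if 𝔓 ∈ T then exp (1 : ℤ) else 1)) →
  ∃ G : Mt g k[X], G.det ≠ 0 ∧
    G.det.natDegree = ∑ P ∈ S₁, (b P).natDegree * P.natDegree ∧
    ∀ i j, algebraMap k[X] K (G i j) =
      hG.top (algebraMap k[X] L (∏ Q ∈ S₁, Q) * (e i * e j) / α)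

/-- **GLG** (adapt `S_GL`, N655/PJ/Gl.lean, from `S_IDG`). The global Lagrangian. -/
def S_GLG : Prop := ∀ (g : ℕ) (k K L O : Type) [Field k] [Finite k] [Field K] [Algebra k[X] K]
  [IsFractionRing k[X] K]
  [Field L] [Algebra K L] [Algebra k[X] L] [IsScalarTower k[X] K L] [CommRing O]
  [IsDedekindDomain O] [Algebra O L] [IsFractionRing O L] [Algebra k[X] O]
  [IsScalarTower k[X] O L] [IsIntegralClosure O k[X] L] (f : k[X][X]) (θ : L) (N : ℕ) (r : k[X])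
  (S₁ : Finset k[X]) (a b : k[X] → k[X][X]) (T : Finset (HeightOneSpectrum O)),
  ∀ hG : IsGen g K f θ, Fm g N r f → S₁.Nonempty → Dat g f θ S₁ a b T →
  ∀ α : L, α ≠ 0 → (∀ 𝔓 ∈ T, ¬ Ev 𝔓 α) → (∀ 𝔓 : HeightOneSpectrum O, 𝔓 ∉ T → Ev 𝔓 α) →
  ∀ m : ℕ, 2 * m = ∑ P ∈ S₁, (a P).natDegree * P.natDegree →
    ∃ x : Fin m → L,
      (∀ i, ∀ 𝔓 : HeightOneSpectrum O, 𝔓.valuation L (x i) ^ 2 ≤
        𝔓.valuation L α * (if 𝔓 ∈ T then exp (1 : ℤ) else 1)) ∧
      (∀ i j, ∃ y : k[X], hG.top (algebraMap k[X] L (∏ Q ∈ S₁, Q) * (x i * x j) / α) =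
        algebraMap k[X] K y ∧ res (∏ Q ∈ S₁, Q) y = 0) ∧
      ∀ c : Fin m → k,
        (∀ 𝔓 : HeightOneSpectrum O,
          𝔓.valuation L (∑ i, algebraMap k[X] L (C (c i)) * x i) ^ 2 ≤
            𝔓.valuation L α * (if 𝔓 ∈ T then exp (-1 : ℤ) else 1)) → c = 0

/-- The degrees. -/
theorem Dat.deg {k L : Type} [Field k] [Field L] [Algebra k[X] L] {O : Type} [CommRing O]
    [IsDedekindDomain O] [Algebra O L] [IsFractionRing O L] [Algebra k[X] O] {g : ℕ} {f : k[X][X]}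
    {θ : L} {S₁ : Finset k[X]} {a b : k[X] → k[X][X]} {T : Finset (HeightOneSpectrum O)}
    (D : Dat g f θ S₁ a b T) (hf : f.Monic) (hd : f.natDegree = 2 * g + 1) {P : k[X]}
    (hP : P ∈ S₁) : (a P).natDegree + (b P).natDegree = 2 * g + 1 := by
  have h1 := (D.am P hP).natDegree_mul (D.bm P hP)
  rw [← h1, ← hd]
  have hm : (a P * b P).Monic := (D.am P hP).mul (D.bm P hP)
  have hu : ¬ P ∣ (1 : k[X]) := fun h => (D.irr P hP).not_isUnit (isUnit_of_dvd_one h)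
  rcases lt_trichotomy (a P * b P).natDegree f.natDegree with h | h | h
  · exfalso
    have h2 := D.cong P hP f.natDegree
    rw [coeff_sub, coeff_eq_zero_of_natDegree_lt h, sub_zero, hf.coeff_natDegree] at h2
    exact hu h2
  · exact h
  · exfalso
    have h2 := D.cong P hP (a P * b P).natDegree
    rw [coeff_sub, coeff_eq_zero_of_natDegree_lt h, zero_sub, hm.coeff_natDegree, dvd_neg] at h2
    exact hu h2

end Run7.h286.TG
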