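import Pool.Agent.Run7.h286.TG.RC

/-!
# Project TG (helper784), piece REC (helper286): the first Lagrangian, the parity

Adapted from N622/PJ/RecE.lean, Rec.lean (helper622).
-/

set_option autoImplicit false
set_option linter.all false

open Polynomial IsDedekindDomain Matrix WithZero
open scoped Classical

namespace Run7.h286.TG

open Pool.Agent.N874.PP (Ov Ev Sq1)
open Pool.Agent.N352.PJ (IsGen Crd Fam GoodR Ht dsc res Mt S_INT S_PRY)
open Run7.h784.TG (Fm)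
open Pool.Agent.N622.PJ (resL resL_apply res_dvd res_congr dvd_of_res mapO mapK co co_spec tp tp_apply
  tp_spec dvd_co dvd_tp dvd_of_co co_low co_sum tp_pow dvd_of_top theta_ex crt crtL val_ne val_exp
  mem_iff_val lt_one_iff le_of_sq_le le_of_mul_le sum_sq_le ov_iff eq_of_ov FF red red_surj red_zero
  red_eq algF lam lam_add lam_smul co_pow poly_zero approx_mul le_of_approx eq_of_approx
  sq1_mul_sq sq1_iff sq1_mul sq1_of_mul sq1_mul_iff isSquare_iff)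

section lag

variable {k K L O : Type} [Field k] [Field K] [Algebra k[X] K] [IsFractionRing k[X] K]
  [Field L] [Algebra K L] [Algebra k[X] L] [IsScalarTower k[X] K L] [CommRing O]
  [IsDedekindDomain O] [Algebra O L] [IsFractionRing O L] [Algebra k[X] O]
  [IsScalarTower k[X] O L] [IsIntegralClosure O k[X] L] {g : ℕ} {f : k[X][X]} {θ : L}
  {S₁ : Finset k[X]} {a b : k[X] → k[X][X]} {T : Finset (HeightOneSpectrum O)}

attribute [local instance] algF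

/-- the element `β` -/
theorem exists_beta {α : L} (hα : α ≠ 0) (hev : ∀ 𝔓 ∈ T, ¬ Ev 𝔓 α) :
    ∃ β : L, β ≠ 0 ∧ ∀ 𝔓 ∈ T, 𝔓.valuation L β ^ 2 = 𝔓.valuation L α * exp (1 : ℤ) := by
  have h1 : ∀ 𝔓 : HeightOneSpectrum O, ∃ y : L, y ≠ 0 ∧
      (𝔓 ∈ T → 𝔓.valuation L y ^ 2 = 𝔓.valuation L α * exp (1 : ℤ)) := by
    intro 𝔓
    by_cases h𝔓 : 𝔓 ∈ T
    · obtain ⟨m, hm⟩ := val_exp 𝔓 hα
      rcases Int.even_or_odd' m with ⟨n, hn | hn⟩
      · exfalso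
        apply hev 𝔓 h𝔓
        obtain ⟨y, hy⟩ := 𝔓.valuation_surjective L (exp (-n))
        refine ⟨y, ?_⟩
        rw [hm, hy, ← WithZero.exp_nsmul, hn]
        congr 1
        simp
      · obtain ⟨y, hy⟩ := 𝔓.valuation_surjective L (exp (-n))
        refine ⟨y, ?_, fun _ => ?_⟩
        · rintro rfl
          rw [map_zero] at hy
          exact exp_ne_zero hy.symm
        · rw [hm, hy, ← WithZero.exp_nsmul, ← exp_add, hn]
          congr 1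
          simp
    · exact ⟨1, one_ne_zero, fun h => absurd h h𝔓⟩
  choose y hy0 hy using h1
  obtain ⟨β, hβ0, hβ⟩ := Pool.Agent.N765.PP.weak (L := L) T y (fun v _ => hy0 v)
  exact ⟨β, hβ0, fun 𝔓 h𝔓 => by rw [hβ 𝔓 h𝔓, hy 𝔓 h𝔓]⟩

theorem Dat.valPT (D : Dat g f θ S₁ a b T) {𝔓 : HeightOneSpectrum O} (h : 𝔓 ∈ T) :
    𝔓.valuation L (algebraMap k[X] L (∏ Q ∈ S₁, Q)) = exp (-1 : ℤ) := by
  obtain ⟨Q, hQ, hov, -⟩ := (D.mem 𝔓).1 h
  exact D.valP hQ hov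

/-- the class of the form is a unit -/
theorem Dat.kap (D : Dat g f θ S₁ a b T) {α β : L} (hα : α ≠ 0)
    (hβ : ∀ 𝔓 ∈ T, 𝔓.valuation L β ^ 2 = 𝔓.valuation L α * exp (1 : ℤ))
    {𝔓 : HeightOneSpectrum O} (h : 𝔓 ∈ T) :
    𝔓.valuation L (algebraMap k[X] L (∏ Q ∈ S₁, Q) * β ^ 2 / α) = 1 := by
  rw [map_div₀, map_mul, map_pow, hβ 𝔓 h, D.valPT h,
    div_eq_one_iff_eq (val_ne _ hα), mul_left_comm, ← exp_add]
  simp

variable (hI : S_INT) (hG : IsGen g K f θ) (hsq : Squarefree (dsc g f))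

/-- the first Lagrangian is isotropic -/
theorem first_iso (D : Dat g f θ S₁ a b T) {η : O} (hη : Eta S₁ T η) {α β : L} (hα : α ≠ 0)
    (hβ0 : β ≠ 0)
    (hβ : ∀ 𝔓 ∈ T, 𝔓.valuation L β ^ 2 = 𝔓.valuation L α * exp (1 : ℤ)) {κ : O}
    (hκ : ∀ 𝔓 ∈ T, 𝔓.valuation L
      (algebraMap O L κ - algebraMap k[X] L (∏ Q ∈ S₁, Q) * β ^ 2 / α) < 1) {x x' : L} {ζ ζ' : O}
    (hx : ∀ 𝔓 : HeightOneSpectrum O, 𝔓.valuation L x ^ 2 ≤
        𝔓.valuation L α * (if 𝔓 ∈ T then exp (1 : ℤ) else 1))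
    (hx' : ∀ 𝔓 : HeightOneSpectrum O, 𝔓.valuation L x' ^ 2 ≤
        𝔓.valuation L α * (if 𝔓 ∈ T then exp (1 : ℤ) else 1))
    (hζ : ∀ 𝔓 ∈ T, 𝔓.valuation L (algebraMap O L ζ - x / β) < 1)
    (hζ' : ∀ 𝔓 ∈ T, 𝔓.valuation L (algebraMap O L ζ' - x' / β) < 1)
    (hy : ∃ y : k[X], hG.top (algebraMap k[X] L (∏ Q ∈ S₁, Q) * (x * x') / α) =
        algebraMap k[X] K y ∧ res (∏ Q ∈ S₁, Q) y = 0) :
    sL hI hG hsq D hη (redT T κ * redT T ζ * redT T ζ') = 0 := by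
  rw [← map_mul, ← map_mul, sL_red]
  have hxx : ∀ 𝔓 : HeightOneSpectrum O, 𝔓.valuation L x * 𝔓.valuation L x' ≤
        𝔓.valuation L α * (if 𝔓 ∈ T then exp (1 : ℤ) else 1) := fun 𝔓 =>
    le_of_mul_le (hx 𝔓) (hx' 𝔓)
  have hva : ∀ 𝔓 : HeightOneSpectrum O, 0 < 𝔓.valuation L α := fun 𝔓 => zero_lt_iff.2 (val_ne 𝔓 hα)
  have hY : ∀ 𝔓 : HeightOneSpectrum O, 𝔓.valuation L
      (algebraMap k[X] L (∏ Q ∈ S₁, Q) * (x * x') / α) ≤
        𝔓.valuation L (algebraMap k[X] L (∏ Q ∈ S₁, Q)) *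
          (if 𝔓 ∈ T then exp (1 : ℤ) else 1) := by
    intro 𝔓
    rw [map_div₀, map_mul, map_mul, div_le_iff₀ (hva 𝔓), mul_assoc]
    refine mul_le_mul_right ?_ _
    rw [mul_comm _ (𝔓.valuation L α)]
    exact hxx 𝔓
  have hY1 : ∀ 𝔓 : HeightOneSpectrum O, 𝔓.valuation L
      (algebraMap k[X] L (∏ Q ∈ S₁, Q) * (x * x') / α) ≤ 1 := by
    intro 𝔓
    refine (hY 𝔓).trans ?_
    by_cases h : 𝔓 ∈ T
    · rw [if_pos h, D.valPT h, ← exp_add]
      simp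
    · rw [if_neg h, mul_one]
      exact D.valP_le 𝔓
  obtain ⟨w, hw⟩ := HeightOneSpectrum.mem_integers_of_valuation_le_one L _ hY1
  obtain ⟨y, hy1, hy2⟩ := hy
  have htw : tp hI hG hsq w = y := by
    apply IsFractionRing.injective k[X] K
    rw [tp_spec, hw, hy1]
  rw [lam_congr hI hG hsq D (w := w), htw, hy2]
  apply D.dvd
  intro Q hQ 𝔓 hov
  by_cases hT : 𝔓 ∈ T
  · have h1 : η * (κ * ζ * ζ') - w = (η - 1) * (κ * ζ * ζ') + (κ * ζ * ζ' - w) := by ring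
    rw [h1]
    refine Ideal.add_mem _ (Ideal.mul_mem_right _ _ (hη.1 𝔓 hT)) ?_
    rw [mem_iff_val (L := L), map_sub, map_mul, map_mul, hw]
    have h2 : algebraMap k[X] L (∏ Q ∈ S₁, Q) * (x * x') / α =
        (algebraMap k[X] L (∏ Q ∈ S₁, Q) * β ^ 2 / α) * (x / β) * (x' / β) := by
      field_simp
    rw [h2]
    have hvb : 0 < 𝔓.valuation L β := zero_lt_iff.2 (val_ne _ hβ0)
    have hu : ∀ z : L, (∀ 𝔓 : HeightOneSpectrum O, 𝔓.valuation L z ^ 2 ≤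
        𝔓.valuation L α * (if 𝔓 ∈ T then exp (1 : ℤ) else 1)) →
        𝔓.valuation L (z / β) ≤ 1 := by
      intro z hz
      rw [map_div₀, div_le_one₀ hvb]
      apply le_of_sq_le
      rw [hβ 𝔓 hT]
      have h3 := hz 𝔓
      rwa [if_pos hT] at h3
    have hk1 := D.kap hα hβ hT
    have h3 := approx_mul hk1.le (hu x hx) (hκ 𝔓 hT) (hζ 𝔓 hT)
    have h4 : 𝔓.valuation L (algebraMap k[X] L (∏ Q ∈ S₁, Q) * β ^ 2 / α * (x / β)) ≤ 1 := by
      rw [map_mul, hk1, one_mul]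
      exact hu x hx
    exact approx_mul h4 (hu x' hx') h3 (hζ' 𝔓 hT)
  · refine Ideal.sub_mem _ (Ideal.mul_mem_right _ _ (hη.2 Q hQ 𝔓 hov hT)) ?_
    rw [mem_iff_val (L := L), hw]
    refine lt_of_le_of_lt (hY 𝔓) ?_
    rw [if_neg hT, mul_one, D.valP hQ hov, lt_one_iff]

/-- the first Lagrangian is independent -/
theorem first_ind {α β : L} (hα : α ≠ 0) (hβ0 : β ≠ 0)
    (hβ : ∀ 𝔓 ∈ T, 𝔓.valuation L β ^ 2 = 𝔓.valuation L α * exp (1 : ℤ)) {d : ℕ}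
    {x : Fin d → L} {ζ : Fin d → O}
    (hx : ∀ a, ∀ 𝔓 : HeightOneSpectrum O, 𝔓.valuation L (x a) ^ 2 ≤
        𝔓.valuation L α * (if 𝔓 ∈ T then exp (1 : ℤ) else 1))
    (hζ : ∀ a, ∀ 𝔓 ∈ T, 𝔓.valuation L (algebraMap O L (ζ a) - x a / β) < 1)
    (hc : ∀ c : Fin d → k,
        (∀ 𝔓 : HeightOneSpectrum O,
          𝔓.valuation L (∑ a, algebraMap k[X] L (C (c a)) * x a) ^ 2 ≤
            𝔓.valuation L α * (if 𝔓 ∈ T then exp (-1 : ℤ) else 1)) → c = 0) :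
    LinearIndependent k (fun a => redT T (ζ a)) := by
  rw [Fintype.linearIndependent_iff]
  intro c h0
  simp only [redT_smul] at h0
  rw [← map_sum, redT_zero] at h0
  refine fun a => congrFun (hc c fun 𝔓 => ?_) a
  have hC : ∀ a, 𝔓.valuation L (algebraMap k[X] L (C (c a))) ≤ 1 := by
    intro a
    rw [IsScalarTower.algebraMap_apply k[X] O L]
    exact 𝔓.valuation_le_one _
  by_cases h : 𝔓 ∈ T
  · rw [if_pos h]
    have h1 := h0 𝔓 h
    rw [mem_iff_val (L := L), map_sum] at h1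
    have h2 : 𝔓.valuation L (∑ a, algebraMap k[X] L (C (c a)) * (x a / β)) < 1 := by
      have h3 : (∑ a, algebraMap k[X] L (C (c a)) * (x a / β)) =
          (∑ a, algebraMap O L (algebraMap k[X] O (C (c a)) * ζ a)) -
            ∑ a, algebraMap k[X] L (C (c a)) * (algebraMap O L (ζ a) - x a / β) := by
        rw [← Finset.sum_sub_distrib]
        refine Finset.sum_congr rfl fun a _ => ?_
        rw [map_mul, mapO]
        ring
      rw [h3]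
      refine lt_of_le_of_lt (Valuation.map_sub _ _ _) (max_lt h1 ?_)
      refine Valuation.map_sum_lt _ one_ne_zero fun a _ => ?_
      rw [map_mul, mul_comm]
      exact mul_lt_one_of_nonneg_of_lt_one_left zero_le' (hζ a 𝔓 h) (hC a)
    have h4 : (∑ a, algebraMap k[X] L (C (c a)) * x a) =
        (∑ a, algebraMap k[X] L (C (c a)) * (x a / β)) * β := by
      rw [Finset.sum_mul]
      refine Finset.sum_congr rfl fun a _ => ?_
      field_simp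
    rw [h4, map_mul, mul_pow, hβ 𝔓 h]
    rw [lt_one_iff] at h2
    have h5 : 𝔓.valuation L (∑ a, algebraMap k[X] L (C (c a)) * (x a / β)) ^ 2 ≤
        exp (-1 : ℤ) ^ 2 := pow_le_pow_left₀ zero_le' h2 2
    calc _ ≤ exp (-1 : ℤ) ^ 2 * (𝔓.valuation L α * exp (1 : ℤ)) := mul_le_mul_left h5 _
      _ = 𝔓.valuation L α * exp (-1 : ℤ) := by
        rw [mul_left_comm, ← WithZero.exp_nsmul, ← exp_add]
        congr 2
  · rw [if_neg h]
    apply sum_sq_le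
    intro a _
    have h1 := hx a 𝔓
    rw [if_neg h] at h1
    rw [map_mul, mul_pow]
    refine le_trans ?_ h1
    calc _ ≤ 1 * 𝔓.valuation L (x a) ^ 2 := mul_le_mul_left (pow_le_one₀ zero_le' (hC a)) _
      _ = _ := one_mul _

/-- the class of `κ b` -/
theorem class_iff (D : Dat g f θ S₁ a b T) {α β : L} (hα : α ≠ 0) (hβ0 : β ≠ 0)
    (hβ : ∀ 𝔓 ∈ T, 𝔓.valuation L β ^ 2 = 𝔓.valuation L α * exp (1 : ℤ)) {κ t : O}
    (ht : algebraMap O L t = θ)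
    (hκ : ∀ 𝔓 ∈ T, 𝔓.valuation L
      (algebraMap O L κ - algebraMap k[X] L (∏ Q ∈ S₁, Q) * β ^ 2 / α) < 1)
    {e : k[X] → k[X]} (he : ∀ P ∈ S₁, P ∣ e P - 1 ∧ ∀ Q ∈ S₁, Q ≠ P → Q ∣ e P)
    {u : k[X] → k[X]} (hu : ∀ P ∈ S₁, ¬ P ∣ u P) {Q : k[X]} (hQ : Q ∈ S₁)
    {𝔓 : HeightOneSpectrum O} (hov : Ov Q 𝔓) (hT : 𝔓 ∈ T) :
    κ ∉ 𝔓.asIdeal ∧ bb e t S₁ b (fun P => -(u P * ∏ R ∈ S₁.erase P, R)) ∉ 𝔓.asIdeal ∧
    (IsSquare (red 𝔓 κ * red 𝔓 (bb e t S₁ b (fun P => -(u P * ∏ R ∈ S₁.erase P, R)))) ↔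
      Sq1 𝔓 (α * (algebraMap k[X] L (-(Q * u Q)) * eval₂ (algebraMap k[X] L) θ (b Q)))) := by
  obtain ⟨cc, hcc⟩ : ∃ cc : k[X] → k[X], cc = fun P => -(u P * ∏ R ∈ S₁.erase P, R) := ⟨_, rfl⟩
  rw [← hcc]
  obtain ⟨B, hB⟩ : ∃ B : O, B = bb e t S₁ b cc := ⟨_, rfl⟩
  rw [← hB]
  have hk1 := D.kap hα hβ hT
  set w := algebraMap k[X] L (∏ Q ∈ S₁, Q) * β ^ 2 / α with hw
  have hk2 : 𝔓.valuation L (algebraMap O L κ) = 1 := eq_of_approx hk1 (hκ 𝔓 hT)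
  have hw0 : w ≠ 0 := by
    intro h0
    rw [h0, map_zero] at hk1
    exact zero_ne_one hk1
  have hκm : κ ∉ 𝔓.asIdeal := by
    rw [mem_iff_val (L := L), hk2]
    exact lt_irrefl _
  -- the polynomial `cc Q` is prime to `Q`
  have hnd : ¬ Q ∣ ∏ R ∈ S₁.erase Q, R := by
    intro h
    obtain ⟨Q', hQ', hd⟩ := (D.irr Q hQ).prime.exists_mem_finset_dvd h
    have hQ'1 := Finset.mem_of_mem_erase hQ'
    exact Finset.ne_of_mem_erase hQ' (Polynomial.eq_of_monic_of_associated (D.mon Q hQ)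
      (D.mon Q' hQ'1) ((D.irr Q hQ).associated_of_dvd (D.irr Q' hQ'1) hd)).symm
  have hndc : ¬ Q ∣ cc Q := by
    rw [hcc]
    simp only [dvd_neg]
    intro h
    exact ((D.irr Q hQ).prime.dvd_or_dvd h).elim (hu Q hQ) hnd
  obtain ⟨bL, hbL⟩ : ∃ bL : L, bL = eval₂ (algebraMap k[X] L) θ (b Q) := ⟨_, rfl⟩
  have hvb : 𝔓.valuation L bL = 1 := by
    rw [hbL]
    exact (D.ta hQ hov hT).2
  have hvc : 𝔓.valuation L (algebraMap k[X] L (cc Q)) = 1 := by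
    rw [IsScalarTower.algebraMap_apply k[X] O L, 𝔓.valuation_eq_one_iff_notMem,
      ov_iff (D.irr Q hQ) hov]
    exact hndc
  -- `B` is near `cc Q * b Q (θ)`
  have hBmem := bb_mem he t b cc hQ hov
  rw [← hB, mem_iff_val (L := L), map_sub, map_mul, mapO, ev_map ht, ← hbL] at hBmem
  have hvcb : 𝔓.valuation L (algebraMap k[X] L (cc Q) * bL) = 1 := by
    rw [map_mul, hvc, hvb, one_mul]
  have hvB : 𝔓.valuation L (algebraMap O L B) = 1 := eq_of_approx hvcb hBmem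
  have hBm : B ∉ 𝔓.asIdeal := by
    rw [mem_iff_val (L := L), hvB]
    exact lt_irrefl _
  refine ⟨hκm, hBm, ?_⟩
  have hmul : κ * B ∉ 𝔓.asIdeal := fun h => (𝔓.isPrime.mem_or_mem h).elim hκm hBm
  rw [← map_mul]
  refine (isSquare_iff (L := L) hmul).trans ?_
  rw [map_mul]
  have hκ0 : algebraMap O L κ ≠ 0 := by
    intro h0
    rw [h0, map_zero] at hk2
    exact zero_ne_one hk2
  have hB0 : algebraMap O L B ≠ 0 := by
    intro h0
    rw [h0, map_zero] at hvB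
    exact zero_ne_one hvB
  have hcb0 : algebraMap k[X] L (cc Q) * bL ≠ 0 := by
    intro h0
    rw [h0, map_zero] at hvcb
    exact zero_ne_one hvcb
  have hr : Sq1 𝔓 (algebraMap O L κ / w) := by
    rw [sq1_iff]
    refine ⟨1, one_ne_zero, ?_⟩
    have e : algebraMap O L κ / w / 1 ^ 2 - 1 = (algebraMap O L κ - w) / w := by
      field_simp
    rw [e, map_div₀, hk1, div_one]
    exact hκ 𝔓 hT
  have hr2 : Sq1 𝔓 (algebraMap O L B / (algebraMap k[X] L (cc Q) * bL)) := by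
    rw [sq1_iff]
    refine ⟨1, one_ne_zero, ?_⟩
    have e : algebraMap O L B / (algebraMap k[X] L (cc Q) * bL) / 1 ^ 2 - 1 =
        (algebraMap O L B - (algebraMap k[X] L (cc Q) * bL)) /
          (algebraMap k[X] L (cc Q) * bL) := by
      rw [one_pow, div_one, sub_div, div_self hcb0]
    rw [e, map_div₀, hvcb, div_one]
    exact hBmem
  have e1 : algebraMap O L κ * algebraMap O L B = (w * (algebraMap k[X] L (cc Q) * bL)) *
      (algebraMap O L B / (algebraMap k[X] L (cc Q) * bL)) * (algebraMap O L κ / w) := by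
    rw [mul_assoc w, mul_div_cancel₀ _ hcb0]
    field_simp
  rw [e1, sq1_mul_iff (div_ne_zero hκ0 hw0) hr, sq1_mul_iff (div_ne_zero hB0 hcb0) hr2]
  have hP : (∏ Q ∈ S₁, Q) = Q * ∏ Q ∈ S₁.erase Q, Q := (Finset.mul_prod_erase _ _ hQ).symm
  obtain ⟨M, hM⟩ : ∃ M : k[X], M = ∏ R ∈ S₁.erase Q, R := ⟨_, rfl⟩
  rw [← hM] at hP hnd
  have hM0 : algebraMap k[X] L M ≠ 0 := by
    intro h0
    apply hnd
    rw [D.inj (h0.trans (map_zero _).symm)]
    exact dvd_zero _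
  have hcQ : cc Q = -(u Q * M) := by rw [hcc, hM]
  have e2 : w * (algebraMap k[X] L (cc Q) * bL) =
      (α * (algebraMap k[X] L (-(Q * u Q)) * bL)) * (algebraMap k[X] L M * β / α) ^ 2 := by
    rw [hw, hP, hcQ]
    simp only [map_mul, map_neg]
    field_simp
  rw [e2, sq1_mul_sq (div_ne_zero (mul_ne_zero hM0 hβ0) hα), hbL]

end lag

/-- **The parity.** -/
theorem recg (hI : S_INT) (hP : S_PRY) (hGL : S_GLG) (g : ℕ) (k K L O : Type) [Field k] [Finite k]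
    [Field K] [Algebra k[X] K] [IsFractionRing k[X] K]
    [Field L] [Algebra K L] [Algebra k[X] L] [IsScalarTower k[X] K L] [CommRing O]
    [IsDedekindDomain O] [Algebra O L] [IsFractionRing O L] [Algebra k[X] O]
    [IsScalarTower k[X] O L] [IsIntegralClosure O k[X] L] (f : k[X][X]) (θ : L) (N : ℕ) (r : k[X])
    (S₁ : Finset k[X]) (a b : k[X] → k[X][X]) (T : Finset (HeightOneSpectrum O))
    (hG : IsGen g K f θ) (hF : Fm g N r f) (hne : S₁.Nonempty) (D : Dat g f θ S₁ a b T)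
    (hae : ∀ P ∈ S₁, Even (a P).natDegree) (α : L) (hα : α ≠ 0) (hodd : ∀ 𝔓 ∈ T, ¬ Ev 𝔓 α)
    (hev : ∀ 𝔓 : HeightOneSpectrum O, 𝔓 ∉ T → Ev 𝔓 α) (u : k[X] → k[X])
    (hu : ∀ P ∈ S₁, ¬ P ∣ u P) :
    Even (T.filter fun 𝔓 => ∀ P ∈ S₁, Ov P 𝔓 →
      ¬ Sq1 𝔓 (α * (algebraMap k[X] L (-(P * u P)) * eval₂ (algebraMap k[X] L) θ (b P)))).card := by
  have hsq := hF.fam.sq
  obtain ⟨m, hm⟩ : ∃ m : ℕ, m = ∑ P ∈ S₁, ((a P).natDegree / 2) * P.natDegree := ⟨_, rfl⟩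
  have hm2 : 2 * m = ∑ P ∈ S₁, (a P).natDegree * P.natDegree := by
    rw [hm, Finset.mul_sum]
    refine Finset.sum_congr rfl fun P hP => ?_
    obtain ⟨z, hz⟩ := hae P hP
    rw [hz, show (z + z) / 2 = z by omega]
    ring
  obtain ⟨x, hx1, hx2, hx3⟩ := hGL g k K L O f θ N r S₁ a b T hG hF hne D α hα hodd hev m hm2
  obtain ⟨β, hβ0, hβ⟩ := exists_beta hα hodd
  obtain ⟨η, hη⟩ : ∃ η : O, Eta S₁ T η := D.exists_eta fun Q hQ =>
    Pool.Agent.N765.PP.fin_over (K := K) (L := L) (D.irr Q hQ).ne_zero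
  obtain ⟨t, ht⟩ := theta_ex (O := O) hG
  obtain ⟨e, he⟩ := exists_idem S₁ D.mon D.irr
  have hvb : ∀ 𝔓 : HeightOneSpectrum O, 0 < 𝔓.valuation L β := fun 𝔓 => zero_lt_iff.2 (val_ne _ hβ0)
  -- approximations
  obtain ⟨κ, hκ⟩ : ∃ κ : O, ∀ 𝔓 ∈ T, 𝔓.valuation L
      (algebraMap O L κ - algebraMap k[X] L (∏ Q ∈ S₁, Q) * β ^ 2 / α) < 1 :=
    crtL T (algebraMap k[X] L (∏ Q ∈ S₁, Q) * β ^ 2 / α) fun 𝔓 h6 => (D.kap hα hβ h6).le
  have hζe : ∀ a, ∃ ζ : O, ∀ 𝔓 ∈ T, 𝔓.valuation L (algebraMap O L ζ - x a / β) < 1 := by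
    intro a
    refine crtL T (x a / β) ?_
    intro 𝔓 h6
    rw [map_div₀, div_le_one₀ (hvb 𝔓)]
    apply le_of_sq_le
    rw [hβ 𝔓 h6]
    have h7 := hx1 a 𝔓
    rwa [if_pos h6] at h7
  choose ζ hζ using hζe
  letI : ∀ 𝔓 : HeightOneSpectrum O, Algebra k (FF 𝔓) := algF k
  have hrank := second_rank hI hG hsq D
  rw [← hm2] at hrank
  have hfinM : Module.Finite k (∀ i : T, FF (i : HeightOneSpectrum O)) := by
    have h2 := second_span hI hG hsq D ht he (n := fun P => (a P).natDegree) (fun P _ => rfl)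
    exact ⟨⟨(Set.finite_range (fun j : (Σ P : S₁, Fin ((fun P => (a P).natDegree) (P : k[X])) ×
        Fin (P : k[X]).natDegree) => redT T (yy e t S₁ (fun P => (a P).natDegree) j))).toFinset, by
      rw [Set.Finite.coe_toFinset]
      exact top_le_iff.1 h2⟩⟩
  haveI hfinP : Finite (∀ i : T, FF (i : HeightOneSpectrum O)) := Module.finite_of_finite k
  haveI hfin : ∀ i : T, Finite (FF (i : HeightOneSpectrum O)) := fun i =>
    Finite.of_surjective (fun z : (∀ i : T, FF (i : HeightOneSpectrum O)) => z i)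
      (Function.surjective_eval i)
  obtain ⟨n, hn⟩ : ∃ n : k[X] → ℕ, n = fun P => (a P).natDegree / 2 := ⟨_, rfl⟩
  have hn1 : ∀ P ∈ S₁, n P ≤ (a P).natDegree := fun P _ => by rw [hn]; exact Nat.div_le_self _ _
  have hn2 : ∀ P ∈ S₁, 2 * n P ≤ (a P).natDegree := fun P _ => by
    rw [hn]; exact Nat.mul_div_le _ _
  have hcard : Fintype.card (Σ P : S₁, Fin (n P) × Fin (P : k[X]).natDegree) = m := by
    rw [card_idx, hm, hn]
  let φ := (Fintype.equivFinOfCardEq hcard).symm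
  obtain ⟨c, hc⟩ : ∃ c : k[X] → k[X], c = fun P => -(u P * ∏ R ∈ S₁.erase P, R) := ⟨_, rfl⟩
  have hcl := fun (Q : k[X]) (hQ : Q ∈ S₁) (𝔓 : HeightOneSpectrum O) (hov : Ov Q 𝔓) (hT : 𝔓 ∈ T) =>
    class_iff D hα hβ0 hβ ht hκ he hu hQ hov hT
  rw [← hc] at hcl
  have key := hP k T (fun i : T => FF (i : HeightOneSpectrum O)) (sL hI hG hsq D hη) (redT T κ)
    (redT T (bb e t S₁ b c)) m (fun a => redT T (ζ a)) (fun i => redT T (yy e t S₁ n (φ i)))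
    hF.two
    (fun i h5 => by
      obtain ⟨Q, hQ, hov, -⟩ := (D.mem i).1 i.2
      exact (hcl Q hQ i hov i.2).1 ((red_zero _ _).1 h5))
    (fun i h5 => by
      obtain ⟨Q, hQ, hov, -⟩ := (D.mem i).1 i.2
      exact (hcl Q hQ i hov i.2).2.1 ((red_zero _ _).1 h5)) hrank
    (sL_nondeg hI hG hsq D hη)
    (first_ind hα hβ0 hβ hx1 hζ hx3)
    ((second_ind hI hG hsq D ht he hn1).comp φ φ.injective)
    (fun a b => first_iso hI hG hsq D hη hα hβ0 hβ hκ (hx1 a) (hx1 b) (hζ a) (hζ b) (hx2 a b))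
    (fun i j => second_iso hI hG hsq D hη ht he hn2 c (φ i) (φ j))
  have hcard2 : (Finset.univ.filter fun i : T =>
      ¬ IsSquare (redT T κ i * redT T (bb e t S₁ b c) i)).card =
      (T.filter fun 𝔓 => ∀ P ∈ S₁, Ov P 𝔓 → ¬ Sq1 𝔓 (α * (algebraMap k[X] L (-(P * u P)) *
        eval₂ (algebraMap k[X] L) θ (b P)))).card := by
    rw [← Finset.card_map (Function.Embedding.subtype fun 𝔓 => 𝔓 ∈ T)]
    congr 1
    ext 𝔓
    simp only [Finset.mem_map, Finset.mem_filter, Finset.mem_univ, true_and]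
    constructor
    · rintro ⟨⟨𝔓', h𝔓'⟩, h5, rfl⟩
      exact ⟨h𝔓', fun Q hQ hov h6 => h5 ((hcl Q hQ 𝔓' hov h𝔓').2.2.2 h6)⟩
    · rintro ⟨h𝔓, h5⟩
      obtain ⟨Q, hQ, hov, -⟩ := (D.mem 𝔓).1 h𝔓
      exact ⟨⟨𝔓, h𝔓⟩, fun h6 => h5 Q hQ hov ((hcl Q hQ 𝔓 hov h𝔓).2.2.1 h6), rfl⟩
  rw [← hcard2]
  exact key

end Run7.h286.TG
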